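import Pool.Agent.K1H41.NF.Stm

/-! Families of substitutions (helper68, for helper41, project NF). -/

set_option autoImplicit false

namespace Pool.Agent.K1H41.NF

universe u v

namespace FAM

variable {K : Type u} [Field K] {σ : Type v}

/-- the span of the words of length at most `D` -/
def Sp (K : Type u) [Field K] (σ : Type v) (D : ℕ) : Submodule K (FreeAlgebra K σ) :=
  Submodule.span K {w : FreeAlgebra K σ | ∃ l : List σ, l.length ≤ D ∧
    w = (l.map (FreeAlgebra.ι K)).prod}

theorem Sp_mono {D E : ℕ} (h : D ≤ E) : Sp K σ D ≤ Sp K σ E := by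
  unfold Sp
  refine Submodule.span_mono ?_
  rintro w ⟨l, hl, rfl⟩
  exact ⟨l, hl.trans h, rfl⟩

theorem Sp_mul {D E : ℕ} {p q : FreeAlgebra K σ} (hp : p ∈ Sp K σ D) (hq : q ∈ Sp K σ E) :
    p * q ∈ Sp K σ (D + E) := by
  have h := Submodule.mul_mem_mul hp hq
  unfold Sp at h
  rw [Submodule.span_mul_span] at h
  refine Submodule.span_mono ?_ h
  rintro w ⟨p', ⟨l, hl, rfl⟩, q', ⟨l', hl', rfl⟩, rfl⟩
  refine ⟨l ++ l', ?_, ?_⟩
  · rw [List.length_append]
    omega
  · simp [List.map_append, List.prod_append]

/-- the family of substitutions as one substitution into polynomials -/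
noncomputable def phi (a b : σ → FreeAlgebra K σ) :
    FreeAlgebra K σ →ₐ[K] Polynomial (FreeAlgebra K σ) :=
  FreeAlgebra.lift K fun i => Polynomial.C (a i) + Polynomial.X * Polynomial.C (b i)

theorem coeff_word (a b : σ → FreeAlgebra K σ) (ha : ∀ i, a i ∈ Sp K σ 1)
    (hb : ∀ i, b i ∈ Sp K σ 1) (l : List σ) :
    ∀ k, (phi a b (l.map (FreeAlgebra.ι K)).prod).coeff k ∈ Sp K σ l.length := by
  induction l with
  | nil =>
    intro k
    rw [List.map_nil, List.prod_nil, map_one, Polynomial.coeff_one]
    split_ifs
    · exact Submodule.subset_span ⟨[], le_refl _, by simp⟩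
    · exact Submodule.zero_mem _
  | cons i l ih =>
    intro k
    rw [List.map_cons, List.prod_cons, map_mul]
    have h1 : phi a b (FreeAlgebra.ι K i) =
        Polynomial.C (a i) + Polynomial.X * Polynomial.C (b i) := by
      rw [phi, FreeAlgebra.lift_ι_apply]
    have e : (i :: l).length = 1 + l.length := by
      rw [List.length_cons, add_comm]
    rw [h1, add_mul, mul_assoc, Polynomial.coeff_add, Polynomial.coeff_C_mul, e]
    refine Submodule.add_mem _ (Sp_mul (ha i) (ih k)) ?_
    cases k with
    | zero =>
      rw [Polynomial.mul_coeff_zero, Polynomial.coeff_X_zero, zero_mul]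
      exact Submodule.zero_mem _
    | succ k =>
      rw [Polynomial.coeff_X_mul, Polynomial.coeff_C_mul]
      exact Sp_mul (hb i) (ih k)

end FAM

open FAM in
theorem t_FAM : S_FAM.{u, v} := by
  intro K _ σ a b f
  refine ⟨(phi a b f).natDegree + 1, fun k => (phi a b f).coeff k, ?_, ?_, ?_⟩
  · intro k hk
    exact Polynomial.coeff_eq_zero_of_natDegree_lt (by omega)
  · intro n X t
    have hc : ∀ p : FreeAlgebra K σ, Commute (FreeAlgebra.lift K X p)
        (algebraMap K (Matrix (Fin n) (Fin n) K) t) := fun p => (Algebra.commutes t _).symm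
    have h1 : (Polynomial.eval₂AlgHom (FreeAlgebra.lift K X)
        (algebraMap K (Matrix (Fin n) (Fin n) K) t) hc).comp (phi a b) =
        FreeAlgebra.lift K (fun i => ev (a i) X + t • ev (b i) X) := by
      apply FreeAlgebra.hom_ext
      funext i
      simp only [Function.comp_apply, AlgHom.comp_apply, phi, FreeAlgebra.lift_ι_apply, map_add,
        map_mul, Polynomial.eval₂AlgHom_apply, Polynomial.eval₂_C, Polynomial.eval₂_X, ev]
      congr 1
      rw [← Algebra.smul_def]
      rfl
    have h2 : ev f (fun i => ev (a i) X + t • ev (b i) X) =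
        (phi a b f).eval₂ (FreeAlgebra.lift K X : FreeAlgebra K σ →+* Matrix (Fin n) (Fin n) K)
          (algebraMap K (Matrix (Fin n) (Fin n) K) t) := by
      rw [ev, ← h1]
      rfl
    rw [h2, Polynomial.eval₂_eq_sum_range]
    refine Finset.sum_congr rfl fun k _ => ?_
    rw [← map_pow, ← Algebra.commutes, ← Algebra.smul_def]
    rfl
  · intro D hf ha hb k
    change (phi a b f).coeff k ∈ Sp K σ D
    induction hf using Submodule.span_induction with
    | mem w hw =>
      obtain ⟨l, hl, rfl⟩ := hw
      exact Sp_mono hl (coeff_word a b ha hb l k)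
    | zero =>
      rw [map_zero, Polynomial.coeff_zero]
      exact Submodule.zero_mem _
    | add x y _ _ hx hy =>
      rw [map_add, Polynomial.coeff_add]
      exact Submodule.add_mem _ hx hy
    | smul r x _ hx =>
      rw [map_smul, Polynomial.coeff_smul]
      exact Submodule.smul_mem _ _ hx

end Pool.Agent.K1H41.NF

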