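import Pool.Agent.K1H41.NF.Main
import Pool.Agent.K1H41.NF.T_FAM

/-! Normal forms in many variables with degree control: invariance under triangular affine
substitutions. -/

set_option autoImplicit false

namespace Pool.Agent.K1H41.NF.Bor

open Pool.Agent.K1H41.NF

universe u

variable {K : Type u} [Field K] {n m : ℕ}

/-- directions: `none` is the identity matrix, `some j` is the variable `j` -/
def dirv (d : Option (Fin m)) (X : Fin m → Matrix (Fin n) (Fin n) K) : Matrix (Fin n) (Fin n) K :=
  match d with
  | none => 1
  | some j => X j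

/-- the direction `d` is allowed for the variable `k` -/
def ok (k : Fin m) (d : Option (Fin m)) : Prop :=
  match d with
  | none => True
  | some j => j < k

/-- the span of the directions allowed for the variable `k` -/
def spn (k : Fin m) (X : Fin m → Matrix (Fin n) (Fin n) K) :
    Submodule K (Matrix (Fin n) (Fin n) K) :=
  Submodule.span K {w | ∃ d, ok k d ∧ w = dirv d X}

/-- `Y` is obtained from `X` by a unipotent triangular affine substitution which changes only the
variables with the numbers `≥ k` -/
def Rel (k : ℕ) (X Y : Fin m → Matrix (Fin n) (Fin n) K) : Prop :=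
  (∀ j : Fin m, (j : ℕ) < k → Y j = X j) ∧ ∀ j : Fin m, k ≤ (j : ℕ) → Y j - X j ∈ spn j X

/-- invariance -/
def Inv (n : ℕ) (f : FreeAlgebra K (Fin m)) (k : ℕ) : Prop :=
  ∀ X Y : Fin m → Matrix (Fin n) (Fin n) K, Rel k X Y → ev f Y = ev f X

/-- invariance in one direction -/
def InvD (n : ℕ) (f : FreeAlgebra K (Fin m)) (k : Fin m) (d : Option (Fin m)) : Prop :=
  ∀ (X : Fin m → Matrix (Fin n) (Fin n) K) (s : K),
    ev f (Function.update X k (X k + s • dirv d X)) = ev f X

/-- homogeneity in the variable `k` -/
def Hom (n : ℕ) (f : FreeAlgebra K (Fin m)) (k : Fin m) : Prop :=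
  ∃ e : ℕ, ∀ (X : Fin m → Matrix (Fin n) (Fin n) K) (s : K),
    ev f (Function.update X k (s • X k)) = s ^ e • ev f X

/-- the direction as a polynomial -/
noncomputable def dirp (K : Type u) [Field K] (d : Option (Fin m)) : FreeAlgebra K (Fin m) :=
  match d with
  | none => 1
  | some j => FreeAlgebra.ι K j

theorem ev_dirp (d : Option (Fin m)) (X : Fin m → Matrix (Fin n) (Fin n) K) :
    ev (dirp K d) X = dirv d X := by
  cases d with
  | none => exact ev_one X
  | some j => exact ev_ι j X

theorem one_mem (D : ℕ) : (1 : FreeAlgebra K (Fin m)) ∈ Sp K (Fin m) D :=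
  Submodule.subset_span ⟨[], by simp, by simp⟩

theorem ι_mem (j : Fin m) : FreeAlgebra.ι K j ∈ Sp K (Fin m) 1 :=
  Submodule.subset_span ⟨[j], by simp, by simp⟩

theorem dirp_mem (d : Option (Fin m)) : dirp K d ∈ Sp K (Fin m) 1 := by
  cases d with
  | none => exact one_mem 1
  | some j => exact ι_mem j

/-- the one parameter group in the direction `d` -/
theorem Af_dir (k : Fin m) (d : Option (Fin m)) (t : K)
    (X : Fin m → Matrix (Fin n) (Fin n) K) :
    Af (FreeAlgebra.ι K) (Pi.single k (dirp K d)) t X
      = Function.update X k (X k + t • dirv d X) := by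
  funext i
  unfold Af
  rw [ev_ι]
  by_cases h : i = k
  · subst h
    rw [Pi.single_eq_same, Function.update_self, ev_dirp]
  · rw [Pi.single_eq_of_ne h, Function.update_of_ne h, ev_zero, smul_zero, add_zero]

theorem dirv_update (k : Fin m) (d : Option (Fin m)) (hd : ok k d)
    (X : Fin m → Matrix (Fin n) (Fin n) K) (A : Matrix (Fin n) (Fin n) K) :
    dirv d (Function.update X k A) = dirv d X := by
  cases d with
  | none => rfl
  | some j =>
    have : j < k := hd
    exact Function.update_of_ne (ne_of_lt this) _ _

theorem Af_tor (k : Fin m) (t : K) (X : Fin m → Matrix (Fin n) (Fin n) K) :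
    Af (Function.update (FreeAlgebra.ι K) k 0) (Pi.single k (FreeAlgebra.ι K k)) t X
      = Function.update X k (t • X k) := by
  funext i
  unfold Af
  by_cases h : i = k
  · subst h
    rw [Pi.single_eq_same, Function.update_self, Function.update_self, ev_zero, ev_ι, zero_add]
  · rw [Pi.single_eq_of_ne h, Function.update_of_ne h, Function.update_of_ne h, ev_zero, ev_ι,
      smul_zero, add_zero]

/-- the span of the directions for `j` does not shrink if `X k` is changed by a direction -/
theorem spn_dir (k j : Fin m) (_hkj : k ≤ j) (d : Option (Fin m)) (hd : ok k d)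
    (X : Fin m → Matrix (Fin n) (Fin n) K) (t : K) :
    spn j X ≤ spn j (Function.update X k (X k + t • dirv d X)) := by
  unfold spn
  rw [Submodule.span_le]
  rintro w ⟨e, he, rfl⟩
  by_cases hek : e = some k
  · subst hek
    have hkj' : k < j := he
    have h1 : dirv (some k) X = dirv (some k) (Function.update X k (X k + t • dirv d X))
        - t • dirv d (Function.update X k (X k + t • dirv d X)) := by
      rw [dirv_update k d hd]
      simp [dirv]
    rw [h1]
    refine Submodule.sub_mem _ (Submodule.subset_span ⟨_, he, rfl⟩)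
      (Submodule.smul_mem _ _ (Submodule.subset_span ⟨d, ?_, rfl⟩))
    cases d with
    | none => trivial
    | some i => exact lt_trans (show i < k from hd) hkj'
  · have h1 : dirv e X = dirv e (Function.update X k (X k + t • dirv d X)) := by
      cases e with
      | none => rfl
      | some i =>
        have : i ≠ k := fun h => hek (by rw [h])
        exact (Function.update_of_ne this _ _).symm
    rw [h1]
    exact Submodule.subset_span ⟨_, he, rfl⟩

/-- the span of the directions does not shrink under scaling -/
theorem spn_tor (k j : Fin m) (X : Fin m → Matrix (Fin n) (Fin n) K) (t : K) (ht : t ≠ 0) :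
    spn j X ≤ spn j (Function.update X k (t • X k)) := by
  unfold spn
  rw [Submodule.span_le]
  rintro w ⟨e, he, rfl⟩
  by_cases hek : e = some k
  · subst hek
    have h1 : dirv (some k) X = t⁻¹ • dirv (some k) (Function.update X k (t • X k)) := by
      simp [dirv, smul_smul, inv_mul_cancel₀ ht]
    rw [h1]
    exact Submodule.smul_mem _ _ (Submodule.subset_span ⟨_, he, rfl⟩)
  · have h1 : dirv e X = dirv e (Function.update X k (t • X k)) := by
      cases e with
      | none => rfl
      | some i =>
        have : i ≠ k := fun h => hek (by rw [h])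
        exact (Function.update_of_ne this _ _).symm
    rw [h1]
    exact Submodule.subset_span ⟨_, he, rfl⟩

/-- one direction -/
theorem step_dir [Infinite K] (hFAM : S_FAM.{u, 0}) (hUNI : S_UNI.{u}) (hTOP : S_TOP.{u, 0})
    (D : ℕ) (k : Fin m) (d0 : Option (Fin m)) (hd0 : ok k d0) (f : FreeAlgebra K (Fin m))
    (hf : Good n f) (hD : f ∈ Sp K (Fin m) D) (hi : Inv n f (k + 1)) :
    ∃ g : FreeAlgebra K (Fin m), Good n g ∧ g ∈ Sp K (Fin m) D ∧ Inv n g (k + 1) ∧
      InvD n g k d0 ∧ ∀ d, ok k d → InvD n f k d → InvD n g k d := by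
  obtain ⟨g, hg, h0, h1, -, h3⟩ := step hFAM hUNI hTOP (FreeAlgebra.ι K)
    (Pi.single k (dirp K d0)) f hf 0 (by
      intro X
      rw [Af_dir, zero_smul, add_zero, Function.update_eq_self])
  refine ⟨g, hg, ?_, ?_, ?_, ?_⟩
  · refine h0 D hD (fun i => ι_mem i) (fun i => ?_)
    by_cases h : i = k
    · subst h
      rw [Pi.single_eq_same]
      exact dirp_mem d0
    · rw [Pi.single_eq_of_ne h]
      exact Submodule.zero_mem _
  · intro X Y hXY
    have := h3 X Y 1 (by
      intro t _
      rw [one_smul, Af_dir, Af_dir]
      apply hi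
      have hk : Y k = X k := hXY.1 k (Nat.lt_succ_self _)
      have hdv : dirv d0 Y = dirv d0 X := by
        cases d0 with
        | none => rfl
        | some i =>
          have hik : i < k := hd0
          exact hXY.1 i (by
            have : (i : ℕ) < k := hik
            omega)
      constructor
      · intro j hj
        by_cases h : j = k
        · subst h
          rw [Function.update_self, Function.update_self, hk, hdv]
        · rw [Function.update_of_ne h, Function.update_of_ne h]
          exact hXY.1 j hj
      · intro j hj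
        have h : j ≠ k := by
          rintro rfl
          omega
        rw [Function.update_of_ne h, Function.update_of_ne h]
        refine spn_dir k j ?_ d0 hd0 X t (hXY.2 j hj)
        rw [Fin.le_def]
        omega)
    rw [this, one_smul]
  · intro X s
    have := h1 (by
      intro s t X
      rw [Af_dir, Af_dir, Af_dir, dirv_update k d0 hd0, Function.update_self,
        Function.update_idem, add_smul]
      congr 1
      abel) s X
    rw [Af_dir] at this
    exact this
  · intro d hd hfd X s
    have := h3 X (Function.update X k (X k + s • dirv d X)) 1 (by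
      intro t _
      rw [one_smul, Af_dir, Af_dir, dirv_update k d0 hd0, Function.update_self,
        Function.update_idem]
      have h4 := hfd (Function.update X k (X k + t • dirv d0 X)) s
      rw [dirv_update k d hd, Function.update_self, Function.update_idem] at h4
      rw [← h4]
      congr 2
      abel)
    rw [this, one_smul]

/-- all directions for the variable `k` -/
theorem step_all [Infinite K] (hFAM : S_FAM.{u, 0}) (hUNI : S_UNI.{u}) (hTOP : S_TOP.{u, 0})
    (D : ℕ) (k : Fin m) (f : FreeAlgebra K (Fin m))
    (hf : Good n f) (hD : f ∈ Sp K (Fin m) D) (hi : Inv n f (k + 1)) :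
    ∃ g : FreeAlgebra K (Fin m), Good n g ∧ g ∈ Sp K (Fin m) D ∧ Inv n g k := by
  classical
  have h1 : ∀ S : Finset (Option (Fin m)), ∃ g : FreeAlgebra K (Fin m), Good n g ∧
      g ∈ Sp K (Fin m) D ∧ Inv n g (k + 1) ∧ ∀ d ∈ S, ok k d → InvD n g k d := by
    intro S
    induction S using Finset.induction_on with
    | empty => exact ⟨f, hf, hD, hi, fun d hd => absurd hd (by simp)⟩
    | insert d0 S _ ih =>
      obtain ⟨g, g1, g2, g3, g4⟩ := ih
      by_cases hd0 : ok k d0
      · obtain ⟨g', a1, a2, a3, a4, a5⟩ := step_dir hFAM hUNI hTOP D k d0 hd0 g g1 g2 g3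
        refine ⟨g', a1, a2, a3, fun d hd hok => ?_⟩
        rcases Finset.mem_insert.1 hd with rfl | hd
        · exact a4
        · exact a5 d hok (g4 d hd hok)
      · refine ⟨g, g1, g2, g3, fun d hd hok => ?_⟩
        rcases Finset.mem_insert.1 hd with rfl | hd
        · exact absurd hok hd0
        · exact g4 d hd hok
  obtain ⟨g, g1, g2, g3, g4⟩ := h1 Finset.univ
  refine ⟨g, g1, g2, ?_⟩
  intro X Y hXY
  -- first change the variable `k`
  have h2 : ∀ w ∈ spn k X, ∀ A : Matrix (Fin n) (Fin n) K,
      ev g (Function.update X k (A + w)) = ev g (Function.update X k A) := by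
    intro w hw
    refine Submodule.span_induction (p := fun w _ => ∀ A : Matrix (Fin n) (Fin n) K,
      ev g (Function.update X k (A + w)) = ev g (Function.update X k A)) ?_ ?_ ?_ ?_ hw
    · rintro w ⟨d, hd, rfl⟩ A
      have := g4 d (Finset.mem_univ _) hd (Function.update X k A) 1
      rw [dirv_update k d hd, Function.update_self, Function.update_idem, one_smul] at this
      exact this
    · intro A
      rw [add_zero]
    · intro x y _ _ hx hy A
      rw [← add_assoc, hy, hx]
    · intro a x hx0 hx A
      refine Submodule.span_induction (p := fun x _ => ∀ (a : K) (A : Matrix (Fin n) (Fin n) K),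
        ev g (Function.update X k (A + a • x)) = ev g (Function.update X k A)) ?_ ?_ ?_ ?_ hx0 a A
      · rintro w ⟨d, hd, rfl⟩ a A
        have := g4 d (Finset.mem_univ _) hd (Function.update X k A) a
        rw [dirv_update k d hd, Function.update_self, Function.update_idem] at this
        exact this
      · intro a A
        rw [smul_zero, add_zero]
      · intro x y _ _ hx hy a A
        rw [smul_add, ← add_assoc, hy, hx]
      · intro b x _ hx a A
        rw [smul_smul]
        exact hx _ _
  have h3 : ev g (Function.update X k (Y k)) = ev g X := by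
    have := h2 (Y k - X k) (hXY.2 k le_rfl) (X k)
    rw [add_sub_cancel, Function.update_eq_self] at this
    exact this
  rw [← h3]
  apply g3
  constructor
  · intro j hj
    by_cases h : j = k
    · subst h
      rw [Function.update_self]
    · rw [Function.update_of_ne h]
      apply hXY.1
      have : (j : ℕ) ≠ k := fun e => h (Fin.ext e)
      omega
  · intro j hj
    have h : j ≠ k := by
      rintro rfl
      omega
    rw [Function.update_of_ne h]
    -- the span at the changed tuple
    have hkj : k < j := by
      rw [Fin.lt_def]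
      omega
    have h5 : spn j X ≤ spn j (Function.update X k (Y k)) := by
      unfold spn
      rw [Submodule.span_le]
      rintro w ⟨e, he, rfl⟩
      by_cases hek : e = some k
      · subst hek
        have h6 : dirv (some k) X = dirv (some k) (Function.update X k (Y k)) - (Y k - X k) := by
          simp [dirv]
        rw [h6]
        refine Submodule.sub_mem _ (Submodule.subset_span ⟨_, he, rfl⟩) ?_
        have h7 : spn k X ≤ Submodule.span K
            {w | ∃ d, ok j d ∧ w = dirv d (Function.update X k (Y k))} := by
          unfold spn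
          rw [Submodule.span_le]
          rintro w ⟨d, hd, rfl⟩
          rw [← dirv_update k d hd X (Y k)]
          refine Submodule.subset_span ⟨d, ?_, rfl⟩
          cases d with
          | none => trivial
          | some i => exact lt_trans (show i < k from hd) hkj
        exact h7 (hXY.2 k le_rfl)
      · have h6 : dirv e X = dirv e (Function.update X k (Y k)) := by
          cases e with
          | none => rfl
          | some i =>
            have : i ≠ k := fun h => hek (by rw [h])
            exact (Function.update_of_ne this _ _).symm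
        rw [h6]
        exact Submodule.subset_span ⟨_, he, rfl⟩
    exact h5 (hXY.2 j (by omega))

/-- one torus factor -/
theorem step_tor [Infinite K] (hFAM : S_FAM.{u, 0}) (hUNI : S_UNI.{u}) (hTOP : S_TOP.{u, 0})
    (D : ℕ) (k : Fin m) (f : FreeAlgebra K (Fin m))
    (hf : Good n f) (hD : f ∈ Sp K (Fin m) D) (hi : Inv n f 0) :
    ∃ g : FreeAlgebra K (Fin m), Good n g ∧ g ∈ Sp K (Fin m) D ∧ Inv n g 0 ∧
      Hom n g k ∧ ∀ j, Hom n f j → Hom n g j := by
  obtain ⟨g, hg, h0, -, h2, h3⟩ := step hFAM hUNI hTOP
    (Function.update (FreeAlgebra.ι K) k 0) (Pi.single k (FreeAlgebra.ι K k)) f hf 1 (by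
      intro X
      rw [Af_tor, one_smul, Function.update_eq_self])
  have hHk : Hom n g k := by
    obtain ⟨e, he⟩ := h2 (by
      intro s t X
      rw [Af_tor, Af_tor, Af_tor, Function.update_self, Function.update_idem, smul_smul])
    refine ⟨e, fun X s => ?_⟩
    rw [← he, Af_tor]
  refine ⟨g, hg, ?_, ?_, hHk, ?_⟩
  · refine h0 D hD (fun i => ?_) (fun i => ?_)
    · by_cases h : i = k
      · subst h
        rw [Function.update_self]
        exact Submodule.zero_mem _
      · rw [Function.update_of_ne h]
        exact ι_mem i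
    · by_cases h : i = k
      · subst h
        rw [Pi.single_eq_same]
        exact ι_mem i
      · rw [Pi.single_eq_of_ne h]
        exact Submodule.zero_mem _
  · intro X Y hXY
    have := h3 X Y 1 (by
      intro t ht
      rw [one_smul, Af_tor, Af_tor]
      apply hi
      refine ⟨fun j hj => absurd hj (Nat.not_lt_zero _), fun j _ => ?_⟩
      refine spn_tor k j X t ht ?_
      by_cases h : j = k
      · subst h
        rw [Function.update_self, Function.update_self, ← smul_sub]
        exact Submodule.smul_mem _ _ (hXY.2 j (Nat.zero_le _))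
      · rw [Function.update_of_ne h, Function.update_of_ne h]
        exact hXY.2 j (Nat.zero_le _))
    rw [this, one_smul]
  · intro j hj
    by_cases h : j = k
    · subst h
      exact hHk
    · obtain ⟨e, he⟩ := hj
      refine ⟨e, fun X s => ?_⟩
      exact h3 X (Function.update X j (s • X j)) (s ^ e) (by
        intro t _
        rw [Af_tor, Af_tor, Function.update_of_ne (fun e => h e.symm)]
        have h4 := he (Function.update X k (t • X k)) s
        rw [Function.update_of_ne h] at h4
        rw [← h4, Function.update_comm h])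

/-- the normal form of good polynomials in finitely many variables -/
theorem normal_fin [Infinite K] (hFAM : S_FAM.{u, 0}) (hUNI : S_UNI.{u}) (hTOP : S_TOP.{u, 0})
    (D : ℕ) (f : FreeAlgebra K (Fin m)) (hf : Good n f) (hD : f ∈ Sp K (Fin m) D) :
    ∃ g : FreeAlgebra K (Fin m), Good n g ∧ g ∈ Sp K (Fin m) D ∧ Inv n g 0 ∧
      ∀ j, Hom n g j := by
  classical
  have h1 : ∀ r : ℕ, r ≤ m → ∃ g : FreeAlgebra K (Fin m), Good n g ∧ g ∈ Sp K (Fin m) D ∧
      Inv n g (m - r) := by
    intro r
    induction r with
    | zero =>
      intro _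
      refine ⟨f, hf, hD, ?_⟩
      intro X Y hXY
      have : Y = X := by
        funext j
        exact hXY.1 j (by
          have := j.2
          omega)
      rw [this]
    | succ r ih =>
      intro hr
      obtain ⟨g, g1, g2, g3⟩ := ih (by omega)
      have e : m - r = (⟨m - (r + 1), by omega⟩ : Fin m).val + 1 := by
        show m - r = m - (r + 1) + 1
        omega
      rw [e] at g3
      exact step_all hFAM hUNI hTOP D ⟨m - (r + 1), by omega⟩ g g1 g2 g3
  obtain ⟨g, g1, g2, g3⟩ := h1 m le_rfl
  rw [Nat.sub_self] at g3
  have h2 : ∀ S : Finset (Fin m), ∃ g : FreeAlgebra K (Fin m), Good n g ∧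
      g ∈ Sp K (Fin m) D ∧ Inv n g 0 ∧ ∀ j ∈ S, Hom n g j := by
    intro S
    induction S using Finset.induction_on with
    | empty => exact ⟨g, g1, g2, g3, fun d hd => absurd hd (by simp)⟩
    | insert k S _ ih =>
      obtain ⟨g, g1, g2, g3, g4⟩ := ih
      obtain ⟨g', a1, a2, a3, a4, a5⟩ := step_tor hFAM hUNI hTOP D k g g1 g2 g3
      refine ⟨g', a1, a2, a3, fun j hj => ?_⟩
      rcases Finset.mem_insert.1 hj with rfl | hj
      · exact a4
      · exact a5 j (g4 j hj)
  obtain ⟨g, g1, g2, g3, g4⟩ := h2 Finset.univ
  exact ⟨g, g1, g2, g3, fun j => g4 j (Finset.mem_univ _)⟩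

theorem ev_lift' {σ : Type*} {τ : Type*} (w : σ → FreeAlgebra K τ) (f : FreeAlgebra K σ)
    (X : τ → Matrix (Fin n) (Fin n) K) :
    ev (FreeAlgebra.lift K w f) X = ev f (fun i => ev (w i) X) := by
  unfold ev
  have : (FreeAlgebra.lift K X).comp (FreeAlgebra.lift K w)
      = FreeAlgebra.lift K (fun i => FreeAlgebra.lift K X (w i)) := by
    apply FreeAlgebra.hom_ext
    funext i
    simp
  exact DFunLike.congr_fun this f

theorem lift_mem_Sp {σ : Type*} {D : ℕ} (w : σ → FreeAlgebra K (Fin m))
    (hw : ∀ i, w i ∈ Sp K (Fin m) 1) (f : FreeAlgebra K σ) (hf : f ∈ Sp K σ D) :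
    FreeAlgebra.lift K w f ∈ Sp K (Fin m) D := by
  unfold Sp at hf
  refine Submodule.span_induction (p := fun f _ => FreeAlgebra.lift K w f ∈ Sp K (Fin m) D)
    ?_ ?_ ?_ ?_ hf
  · rintro x ⟨l, hl, rfl⟩
    have : ∀ l : List σ, FreeAlgebra.lift K w (l.map (FreeAlgebra.ι K)).prod
        ∈ Sp K (Fin m) l.length := by
      intro l
      induction l with
      | nil =>
        rw [List.map_nil, List.prod_nil, map_one]
        exact one_mem _
      | cons a l ih =>
        rw [List.map_cons, List.prod_cons, map_mul, FreeAlgebra.lift_ι_apply, List.length_cons,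
          add_comm]
        exact FAM.Sp_mul (hw a) ih
    exact FAM.Sp_mono hl (this l)
  · rw [map_zero]
    exact Submodule.zero_mem _
  · intro x y _ _ hx hy
    rw [map_add]
    exact Submodule.add_mem _ hx hy
  · intro a x _ hx
    rw [map_smul]
    exact Submodule.smul_mem _ _ hx

/-- the matrices are spanned by `1` and `n ^ 2 - 1` further matrices -/
theorem exists_span (hn : 0 < n) : ∃ E : Fin (n ^ 2 - 1) → Matrix (Fin n) (Fin n) K,
    ∀ A : Matrix (Fin n) (Fin n) K, ∃ (a : K) (b : Fin (n ^ 2 - 1) → K),
      A = a • 1 + ∑ i, b i • E i := by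
  classical
  have : NeZero n := ⟨hn.ne'⟩
  set V : Submodule K (Matrix (Fin n) (Fin n) K) := Submodule.span K {1} with hV
  have h1 : Module.finrank K V = 1 := finrank_span_singleton one_ne_zero
  have h2 : Module.finrank K (Matrix (Fin n) (Fin n) K) = n ^ 2 := by
    rw [Module.finrank_matrix]
    simp [pow_two]
  have h3 : Module.finrank K (Matrix (Fin n) (Fin n) K ⧸ V) = n ^ 2 - 1 := by
    have := Submodule.finrank_quotient_add_finrank V
    omega
  let b := Module.finBasisOfFinrankEq K (Matrix (Fin n) (Fin n) K ⧸ V) h3
  choose E hE using fun i => Submodule.mkQ_surjective V (b i)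
  refine ⟨E, fun A => ?_⟩
  have h4 : A - ∑ i, b.repr (V.mkQ A) i • E i ∈ V := by
    apply (Submodule.Quotient.mk_eq_zero V).1
    change V.mkQ _ = 0
    rw [map_sub, map_sum]
    simp_rw [map_smul, hE]
    rw [b.sum_repr, sub_self]
  obtain ⟨a, ha⟩ := Submodule.mem_span_singleton.1 h4
  exact ⟨a, fun i => b.repr (V.mkQ A) i, by rw [ha, sub_add_cancel]⟩

/-- reduction to `n ^ 2 - 1` variables -/
theorem few_var {σ : Type*} (hn : 0 < n) (D : ℕ) (f : FreeAlgebra K σ)
    (hf : Good n f) (hD : f ∈ Sp K σ D) :
    ∃ g : FreeAlgebra K (Fin (n ^ 2 - 1)), Good n g ∧ g ∈ Sp K (Fin (n ^ 2 - 1)) D := by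
  obtain ⟨E, hE⟩ := exists_span (K := K) hn
  obtain ⟨A, hA⟩ := hf.nz
  choose a b hab using fun i => hE (A i)
  set w : σ → FreeAlgebra K (Fin (n ^ 2 - 1)) := fun i =>
    a i • 1 + ∑ k, b i k • FreeAlgebra.ι K k with hw
  have hw1 : ∀ i, w i ∈ Sp K (Fin (n ^ 2 - 1)) 1 := by
    intro i
    refine Submodule.add_mem _ (Submodule.smul_mem _ _ (one_mem 1))
      (Submodule.sum_mem _ fun k _ => Submodule.smul_mem _ _ (ι_mem k))
  refine ⟨FreeAlgebra.lift K w f, ⟨?_, ?_, E, ?_⟩, lift_mem_Sp w hw1 f hD⟩
  · intro X Z
    rw [ev_lift']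
    exact hf.com _ Z
  · intro X
    rw [ev_lift']
    exact hf.tr _
  · rw [ev_lift']
    have : (fun i => ev (w i) E) = A := by
      funext i
      rw [hab i, hw]
      unfold ev
      simp
    rw [this]
    exact hA

/-- the normal form -/
theorem normal_deg [Infinite K] (hFAM : S_FAM.{u, 0}) (hUNI : S_UNI.{u}) (hTOP : S_TOP.{u, 0})
    {σ : Type*} (hn : 0 < n) (D : ℕ) (f : FreeAlgebra K σ) (hf : Good n f)
    (hD : f ∈ Sp K σ D) :
    ∃ g : FreeAlgebra K (Fin (n ^ 2 - 1)), Good n g ∧ g ∈ Sp K (Fin (n ^ 2 - 1)) D ∧
      Inv n g 0 ∧ ∀ j, Hom n g j := by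
  obtain ⟨g, h1, h2⟩ := few_var hn D f hf hD
  exact normal_fin hFAM hUNI hTOP D g h1 h2

end Pool.Agent.K1H41.NF.Bor
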