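import Pool.Agent.K1H41.NF.Main

set_option autoImplicit false

namespace Pool.Agent.K1H41.NF

universe u v

open Finset Polynomial

variable {K : Type u} [Field K] {n : ℕ}

theorem ev_line {σ : Type v} (f : FreeAlgebra K σ) (P Q : σ → Matrix (Fin n) (Fin n) K)
    (i j : Fin n) : ∃ p : K[X], ∀ t : K, (ev f (fun k => P k + t • Q k)) i j = p.eval t := by
  classical
  let W : σ → Matrix (Fin n) (Fin n) K[X] := fun k => Matrix.of fun a b =>
    C (P k a b) + X * C (Q k a b)
  refine ⟨FreeAlgebra.lift K W f i j, fun t => ?_⟩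
  have h : ((aeval t : K[X] →ₐ[K] K).mapMatrix (m := Fin n)).comp (FreeAlgebra.lift K W)
      = FreeAlgebra.lift K (fun k => P k + t • Q k) := by
    apply FreeAlgebra.hom_ext
    funext k
    ext a b
    simp [W]
    exact mul_comm _ _
  have h2 := congrFun (congrFun (DFunLike.congr_fun h f) i) j
  rw [AlgHom.comp_apply, AlgHom.mapMatrix_apply, Matrix.map_apply] at h2
  unfold ev
  rw [← h2, coe_aeval_eq_eval]

theorem com_inv [Infinite K] (hCYC : S_CYC.{u}) (hLIN : S_LIN.{u}) (g : FreeAlgebra K (Fin 2))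
    (hi : InvH n g) (P Q Z : Matrix (Fin n) (Fin n) K) (hZ : Z * P = P * Z) :
    ev g ![P, Q + Z] = ev g ![P, Q] := by
  obtain ⟨R, v, hR, hv⟩ := hCYC K n Z
  have hfin := hLIN K n P R v hv
  ext i j
  obtain ⟨p, hp⟩ := ev_line g ![P, Q + Z] ![R, 0] i j
  obtain ⟨q, hq⟩ := ev_line g ![P, Q] ![R, 0] i j
  have e1 : ∀ (t : K) (Y : Matrix (Fin n) (Fin n) K),
      (fun k => (![P, Y] : Fin 2 → Matrix (Fin n) (Fin n) K) k + t • (![R, 0] : Fin 2 → _) k)
        = ![P + t • R, Y] := by
    intro t Y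
    funext k
    fin_cases k <;> simp
  have hpq : p = q := by
    apply Polynomial.eq_of_infinite_eval_eq
    refine Set.Infinite.mono ?_ (Set.Finite.infinite_compl hfin)
    intro t ht
    rw [Set.mem_compl_iff, Set.mem_ofPred_eq, not_not] at ht
    obtain ⟨h, hh⟩ := ht Z (by
      rw [mul_add, add_mul, hZ, mul_smul_comm, smul_mul_assoc, hR])
    rw [Set.mem_ofPred_eq, ← hp, ← hq, e1, e1]
    have := hi h (P + t • R) Q
    rw [← hh] at this
    rw [this]
  have h0 := hp 0
  have h1 := hq 0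
  rw [e1, zero_smul, add_zero] at h0 h1
  rw [h0, h1, hpq]

end Pool.Agent.K1H41.NF
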