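import Pool.Agent.K1H41.NF.Stm

/-!
# Normal forms of `n`-central polynomials: the parts UNI and TOP
-/

set_option autoImplicit false

namespace Pool.Agent.K1H41.NF

universe u v

open Polynomial in
/-- a polynomial with coefficients `a 0, …, a (N-1)` vanishing at all nonzero elements of an infinite
field is zero -/
theorem uni_scalar {K : Type u} [Field K] [Infinite K] (N : ℕ) (a : ℕ → K)
    (h : ∀ t : K, t ≠ 0 → ∑ k ∈ Finset.range N, t ^ k * a k = 0) : ∀ k, k < N → a k = 0 := by
  intro k hk
  set p : K[X] := ∑ i ∈ Finset.range N, C (a i) * X ^ i with hp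
  have hp0 : p = 0 := by
    refine Polynomial.eq_zero_of_infinite_isRoot p ?_
    refine Set.Infinite.mono (s := {t : K | t ≠ 0}) ?_ ?_
    · intro t ht
      have ht' : t ≠ 0 := ht
      show Polynomial.IsRoot p t
      rw [Polynomial.IsRoot.def, hp, Polynomial.eval_finsetSum, ← h t ht']
      refine Finset.sum_congr rfl fun i _ => ?_
      rw [Polynomial.eval_mul, Polynomial.eval_C, Polynomial.eval_pow, Polynomial.eval_X, mul_comm]
    · exact (Set.finite_singleton (0 : K)).infinite_compl
  have hc : p.coeff k = a k := by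
    rw [hp, Polynomial.finsetSum_coeff]
    rw [Finset.sum_eq_single k]
    · rw [Polynomial.coeff_C_mul, Polynomial.coeff_X_pow, if_pos rfl, mul_one]
    · intro i _ hik
      rw [Polynomial.coeff_C_mul, Polynomial.coeff_X_pow, if_neg (Ne.symm hik), mul_zero]
    · intro hk'
      exact absurd (Finset.mem_range.2 hk) hk'
  rw [← hc, hp0, Polynomial.coeff_zero]

theorem t_UNI : S_UNI.{u} := by
  intro K _ _ n N a b h k hk
  ext i j
  have h1 := uni_scalar N (fun k => a k i j - b k i j) (by
    intro t ht
    have h2 := congrFun (congrFun (h t ht) i) j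
    rw [Matrix.sum_apply, Matrix.sum_apply] at h2
    have h3 : ∑ k ∈ Finset.range N, t ^ k * (a k i j - b k i j)
        = (∑ k ∈ Finset.range N, (t ^ k • a k) i j) - ∑ k ∈ Finset.range N, (t ^ k • b k) i j := by
      rw [← Finset.sum_sub_distrib]
      refine Finset.sum_congr rfl fun k _ => ?_
      rw [Matrix.smul_apply, Matrix.smul_apply, smul_eq_mul, smul_eq_mul, mul_sub]
    rw [h3, h2, sub_self]) k hk
  exact sub_eq_zero.1 h1

/-- evaluation at the central element `t` as a ring homomorphism -/
noncomputable def evc {K : Type u} [Field K] {n : ℕ} (t : K) :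
    Polynomial (Matrix (Fin n) (Fin n) K) →+* Matrix (Fin n) (Fin n) K :=
  Polynomial.eval₂RingHom' (RingHom.id _) (algebraMap K _ t) fun a =>
    (Algebra.commutes t a).symm

theorem evc_apply {K : Type u} [Field K] {n : ℕ} (t : K)
    (p : Polynomial (Matrix (Fin n) (Fin n) K)) (N : ℕ) (hN : p.natDegree < N) :
    evc t p = ∑ k ∈ Finset.range N, t ^ k • p.coeff k := by
  have h1 : evc t p = Polynomial.eval₂ (RingHom.id _) (algebraMap K _ t) p := rfl
  rw [h1, Polynomial.eval₂_eq_sum_range' _ hN]
  refine Finset.sum_congr rfl fun k _ => ?_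
  rw [RingHom.id_apply, ← map_pow, ← Algebra.commutes, ← Algebra.smul_def]

theorem t_TOP : S_TOP.{u, v} := by
  classical
  intro K _ _ σ n N c hcom htr hne
  set s : Finset ℕ := (Finset.range N).filter
    (fun k => ∃ X : σ → Matrix (Fin n) (Fin n) K, ev (c k) X ≠ 0) with hs
  have hsne : s.Nonempty := by
    obtain ⟨k, hk, X, hX⟩ := hne
    exact ⟨k, by rw [hs, Finset.mem_filter]; exact ⟨Finset.mem_range.2 hk, X, hX⟩⟩
  set d := s.max' hsne with hd
  have hds : d ∈ s := s.max'_mem hsne
  have hds' := hds
  rw [hs, Finset.mem_filter, Finset.mem_range] at hds'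
  obtain ⟨hdN, hdnz⟩ := hds'
  have hbig : ∀ k < N, d < k → ∀ X : σ → Matrix (Fin n) (Fin n) K, ev (c k) X = 0 := by
    intro k hk hdk X
    by_contra hX
    have : k ∈ s := by
      rw [hs, Finset.mem_filter]
      exact ⟨Finset.mem_range.2 hk, X, hX⟩
    exact absurd (s.le_max' k this) (not_le.2 hdk)
  refine ⟨d, hdN, ⟨?_, ?_, hdnz⟩, hbig⟩
  · intro X Z
    set Q : Polynomial (Matrix (Fin n) (Fin n) K) :=
      ∑ k ∈ Finset.range N, Polynomial.monomial k (ev (c k) X) with hQ
    have hcoef : ∀ k, k < N → Q.coeff k = ev (c k) X := by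
      intro k hk
      rw [hQ, Polynomial.finsetSum_coeff, Finset.sum_eq_single k]
      · rw [Polynomial.coeff_monomial, if_pos rfl]
      · intro i _ hik
        rw [Polynomial.coeff_monomial, if_neg hik]
      · intro hk'
        exact absurd (Finset.mem_range.2 hk) hk'
    have hdeg : Q.natDegree ≤ d := by
      rw [hQ]
      refine Polynomial.natDegree_sum_le_of_forall_le _ _ ?_
      intro k hk
      by_cases hdk : d < k
      · rw [hbig k (Finset.mem_range.1 hk) hdk X]
        simp
      · exact (Polynomial.natDegree_monomial_le _).trans (not_lt.1 hdk)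
    have hev : ∀ t : K, evc t Q = ∑ k ∈ Finset.range N, t ^ k • ev (c k) X := by
      intro t
      rw [evc_apply t Q N (lt_of_le_of_lt hdeg hdN)]
      exact Finset.sum_congr rfl fun k hk => by rw [hcoef k (Finset.mem_range.1 hk)]
    set P1 : Polynomial (Matrix (Fin n) (Fin n) K) := Q ^ n * Polynomial.C Z with hP1
    set P2 : Polynomial (Matrix (Fin n) (Fin n) K) := Polynomial.C Z * Q ^ n with hP2
    have hCZ : ∀ t : K, evc t (Polynomial.C Z) = Z := by
      intro t
      show Polynomial.eval₂ (RingHom.id _) (algebraMap K _ t) (Polynomial.C Z) = Z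
      rw [Polynomial.eval₂_C, RingHom.id_apply]
    set L := max (max P1.natDegree P2.natDegree) (n * d) + 1 with hL
    have hL1 : P1.natDegree < L := by
      rw [hL]; exact Nat.lt_succ_of_le ((le_max_left _ _).trans (le_max_left _ _))
    have hL2 : P2.natDegree < L := by
      rw [hL]; exact Nat.lt_succ_of_le ((le_max_right _ _).trans (le_max_left _ _))
    have hL3 : n * d < L := by
      rw [hL]; exact Nat.lt_succ_of_le (le_max_right _ _)
    have key := t_UNI K n L (fun k => P1.coeff k) (fun k => P2.coeff k) (by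
      intro t ht
      rw [← evc_apply t P1 L hL1, ← evc_apply t P2 L hL2, hP1, hP2, map_mul, map_mul, map_pow,
        hCZ, hev t]
      exact hcom t X Z ht) (n * d) hL3
    have key' : (Q ^ n).coeff (n * d) * Z = Z * (Q ^ n).coeff (n * d) := by
      have := key
      simp only [hP1, hP2, Polynomial.coeff_mul_C, Polynomial.coeff_C_mul] at this
      exact this
    rw [Polynomial.coeff_pow_of_natDegree_le hdeg, hcoef d hdN] at key'
    exact key'
  · intro X
    refine uni_scalar N (fun k => (ev (c k) X).trace) ?_ d hdN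
    intro t ht
    have h1 := htr t X ht
    rw [Matrix.trace_sum] at h1
    rw [← h1]
    refine Finset.sum_congr rfl fun k _ => ?_
    rw [Matrix.trace_smul, smul_eq_mul]

end Pool.Agent.K1H41.NF
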