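import Pool.Agent.K1H41.NF.Step
import Pool.Agent.K1H41.NF.T_FAM
import Pool.Agent.K1H41.NF.T_TOP

/-! `n`-central polynomials of minimal degree. -/

set_option autoImplicit false

namespace Pool.Agent.K1H41.NF.Low

open Pool.Agent.K1H41.NF Finset

universe u v

variable {K : Type u} [Field K] {σ : Type v} {n : ℕ}

/-- homogeneous components -/
theorem comps (D : ℕ) (f : FreeAlgebra K σ) (hf : f ∈ Sp K σ D) :
    ∃ c : ℕ → FreeAlgebra K σ, (∀ k, c k ∈ Sp K σ k) ∧
      ∀ (X : σ → Matrix (Fin n) (Fin n) K) (t : K),
        ev f (fun i => t • X i) = ∑ k ∈ range (D + 1), t ^ k • ev (c k) X := by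
  unfold Sp at hf
  induction hf using Submodule.span_induction with
  | mem w hw =>
    obtain ⟨l, hl, rfl⟩ := hw
    refine ⟨fun k => if k = l.length then (l.map (FreeAlgebra.ι K)).prod else 0, fun k => ?_,
      fun X t => ?_⟩
    · by_cases h : k = l.length
      · subst h
        dsimp only
        rw [if_pos rfl]
        exact Submodule.subset_span ⟨l, le_rfl, rfl⟩
      · dsimp only
        rw [if_neg h]
        exact Submodule.zero_mem _
    · rw [Finset.sum_eq_single l.length]
      · dsimp only
        rw [if_pos rfl]
        unfold ev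
        have : ∀ l : List σ, FreeAlgebra.lift K (fun i => t • X i)
            (l.map (FreeAlgebra.ι K)).prod
            = t ^ l.length • FreeAlgebra.lift K X (l.map (FreeAlgebra.ι K)).prod := by
          intro l
          induction l with
          | nil => simp
          | cons a l ih =>
            rw [List.map_cons, List.prod_cons, map_mul, map_mul, ih, FreeAlgebra.lift_ι_apply,
              FreeAlgebra.lift_ι_apply, List.length_cons, smul_mul_smul_comm, pow_succ']
        exact this l
      · intro b _ hb
        dsimp only
        rw [if_neg hb]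
        unfold ev
        rw [map_zero, smul_zero]
      · intro h
        exact absurd (mem_range.2 (by omega)) h
  | zero =>
    refine ⟨fun _ => 0, fun k => Submodule.zero_mem _, fun X t => ?_⟩
    unfold ev
    simp
  | add x y _ _ hx hy =>
    obtain ⟨c, h1, h2⟩ := hx
    obtain ⟨c', h1', h2'⟩ := hy
    refine ⟨fun k => c k + c' k, fun k => Submodule.add_mem _ (h1 k) (h1' k), fun X t => ?_⟩
    have e : ev (x + y) (fun i => t • X i) = ev x (fun i => t • X i) + ev y (fun i => t • X i) := by
      unfold ev
      rw [map_add]
    rw [e, h2, h2', ← sum_add_distrib]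
    refine sum_congr rfl fun k _ => ?_
    unfold ev
    rw [map_add, smul_add]
  | smul r x _ hx =>
    obtain ⟨c, h1, h2⟩ := hx
    refine ⟨fun k => r • c k, fun k => Submodule.smul_mem _ _ (h1 k), fun X t => ?_⟩
    have e : ev (r • x) (fun i => t • X i) = r • ev x (fun i => t • X i) := by
      unfold ev
      rw [map_smul]
    rw [e, h2, smul_sum]
    refine sum_congr rfl fun k _ => ?_
    unfold ev
    rw [map_smul, smul_comm]

/-- the coefficients of a translation have lower degree -/
theorem trans (D : ℕ) (f : FreeAlgebra K σ) (hf : f ∈ Sp K σ D) (a : σ → K) :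
    ∃ c : ℕ → FreeAlgebra K σ, (∀ k, c k ∈ Sp K σ (D - k)) ∧
      ∀ (X : σ → Matrix (Fin n) (Fin n) K) (t : K),
        ev f (fun i => X i + t • Matrix.scalar (Fin n) (a i))
          = ∑ k ∈ range (D + 1), t ^ k • ev (c k) X := by
  unfold Sp at hf
  induction hf using Submodule.span_induction with
  | mem w hw =>
    obtain ⟨l, hl, rfl⟩ := hw
    have key : ∀ l : List σ, ∃ c : ℕ → FreeAlgebra K σ, (∀ k, l.length < k → c k = 0) ∧
        (∀ k, c k ∈ Sp K σ (l.length - k)) ∧
        ∀ (X : σ → Matrix (Fin n) (Fin n) K) (t : K),
          ev (l.map (FreeAlgebra.ι K)).prod (fun i => X i + t • Matrix.scalar (Fin n) (a i))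
            = ∑ k ∈ range (l.length + 1), t ^ k • ev (c k) X := by
      intro l
      induction l with
      | nil =>
        refine ⟨fun k => if k = 0 then 1 else 0, fun k hk => ?_, fun k => ?_, fun X t => ?_⟩
        · rw [List.length_nil] at hk
          dsimp only
          rw [if_neg (by omega)]
        · dsimp only
          split_ifs
          · exact Submodule.subset_span ⟨[], by simp, by simp⟩
          · exact Submodule.zero_mem _
        · unfold ev
          simp
      | cons i l ih =>
        obtain ⟨c, h0, h1, h2⟩ := ih
        refine ⟨fun k => FreeAlgebra.ι K i * c k + (if k = 0 then 0 else a i • c (k - 1)),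
          fun k hk => ?_, fun k => ?_, fun X t => ?_⟩
        · rw [List.length_cons] at hk
          dsimp only
          rw [h0 k (by omega), mul_zero, zero_add, if_neg (by omega), h0 (k - 1) (by omega),
            smul_zero]
        · dsimp only
          rw [List.length_cons]
          refine Submodule.add_mem _ ?_ ?_
          · by_cases hk : l.length < k
            · rw [h0 k hk, mul_zero]
              exact Submodule.zero_mem _
            · have h3 : FreeAlgebra.ι K i ∈ Sp K σ 1 :=
                Submodule.subset_span ⟨[i], by simp, by simp⟩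
              have h4 := FAM.Sp_mul h3 (h1 k)
              exact FAM.Sp_mono (by omega) h4
          · by_cases hk : k = 0
            · rw [if_pos hk]
              exact Submodule.zero_mem _
            · rw [if_neg hk]
              refine Submodule.smul_mem _ _ (FAM.Sp_mono ?_ (h1 (k - 1)))
              omega
        · have e1 : ev (List.map (FreeAlgebra.ι K) (i :: l)).prod
              (fun i => X i + t • Matrix.scalar (Fin n) (a i))
              = (X i + t • Matrix.scalar (Fin n) (a i)) *
                ev (l.map (FreeAlgebra.ι K)).prod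
                  (fun i => X i + t • Matrix.scalar (Fin n) (a i)) := by
            unfold ev
            rw [List.map_cons, List.prod_cons, map_mul, FreeAlgebra.lift_ι_apply]
          have e2 : ∀ k, ev (FreeAlgebra.ι K i * c k + (if k = 0 then 0 else a i • c (k - 1))) X
              = X i * ev (c k) X + (if k = 0 then 0 else a i • ev (c (k - 1)) X) := by
            intro k
            unfold ev
            rw [map_add, map_mul, FreeAlgebra.lift_ι_apply]
            split_ifs
            · rw [map_zero]
            · rw [map_smul]
          have e3 : (Matrix.scalar (Fin n) (a i) : Matrix (Fin n) (Fin n) K) = a i • 1 := by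
            rw [Matrix.scalar_apply, Matrix.smul_one_eq_diagonal]
          rw [e1, h2, add_mul, mul_sum, mul_sum, List.length_cons]
          simp_rw [e2, smul_add]
          rw [sum_add_distrib]
          congr 1
          · symm
            rw [sum_range_succ, h0 (l.length + 1) (Nat.lt_succ_self _)]
            have : ev (0 : FreeAlgebra K σ) X = 0 := by
              unfold ev
              rw [map_zero]
            rw [this, mul_zero, smul_zero, add_zero]
            refine sum_congr rfl fun k _ => ?_
            rw [mul_smul_comm]
          · symm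
            rw [sum_range_succ', if_pos rfl, smul_zero, add_zero]
            refine sum_congr rfl fun k _ => ?_
            rw [if_neg (Nat.succ_ne_zero k), Nat.add_sub_cancel, e3]
            rw [smul_mul_smul_comm, smul_mul_assoc, one_mul, smul_smul, smul_smul, pow_succ']
    obtain ⟨c, h0, h1, h2⟩ := key l
    refine ⟨c, fun k => FAM.Sp_mono (by omega) (h1 k), fun X t => ?_⟩
    rw [h2]
    refine sum_subset ?_ ?_
    · intro x hx
      rw [mem_range] at hx ⊢
      omega
    · intro k _ hk
      rw [mem_range, not_lt] at hk
      rw [h0 k (by omega)]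
      unfold ev
      rw [map_zero, smul_zero]
  | zero =>
    refine ⟨fun _ => 0, fun k => Submodule.zero_mem _, fun X t => ?_⟩
    unfold ev
    simp
  | add x y _ _ hx hy =>
    obtain ⟨c, h1, h2⟩ := hx
    obtain ⟨c', h1', h2'⟩ := hy
    refine ⟨fun k => c k + c' k, fun k => Submodule.add_mem _ (h1 k) (h1' k), fun X t => ?_⟩
    have e : ∀ (x y : FreeAlgebra K σ) (Z : σ → Matrix (Fin n) (Fin n) K),
        ev (x + y) Z = ev x Z + ev y Z := by
      intro x y Z
      unfold ev
      rw [map_add]
    rw [e, h2, h2', ← sum_add_distrib]
    refine sum_congr rfl fun k _ => ?_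
    rw [e, smul_add]
  | smul r x _ hx =>
    obtain ⟨c, h1, h2⟩ := hx
    refine ⟨fun k => r • c k, fun k => Submodule.smul_mem _ _ (h1 k), fun X t => ?_⟩
    have e : ∀ (y : FreeAlgebra K σ) (Z : σ → Matrix (Fin n) (Fin n) K),
        ev (r • y) Z = r • ev y Z := by
      intro y Z
      unfold ev
      rw [map_smul]
    rw [e, h2, smul_sum]
    refine sum_congr rfl fun k _ => ?_
    rw [e, smul_comm]

/-- the lowest component is good -/
theorem low_good [Infinite K] (N : ℕ) (c : ℕ → FreeAlgebra K σ) (f : FreeAlgebra K σ)
    (hf : Good n f)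
    (hc : ∀ (X : σ → Matrix (Fin n) (Fin n) K) (t : K),
      ev f (fun i => t • X i) = ∑ k ∈ range (N + 1), t ^ k • ev (c k) X) :
    ∃ d ≤ N, Good n (c d) ∧ ∀ k < d, ∀ X : σ → Matrix (Fin n) (Fin n) K, ev (c k) X = 0 := by
  have hrev : ∀ (X : σ → Matrix (Fin n) (Fin n) K) (t : K), t ≠ 0 →
      ∑ k ∈ range (N + 1), t ^ k • ev (c (N - k)) X = t ^ N • ev f (fun i => t⁻¹ • X i) := by
    intro X t ht
    rw [hc, smul_sum, ← sum_range_reflect]
    refine sum_congr rfl fun k hk => ?_
    rw [mem_range] at hk
    have e1 : N + 1 - 1 - k = N - k := by omega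
    have e2 : N - (N - k) = k := by omega
    rw [e1, e2, smul_smul]
    congr 1
    have e3 : t ^ N = t ^ (N - k) * t ^ k := by
      rw [← pow_add]
      congr 1
      omega
    rw [e3, mul_assoc, ← mul_pow, mul_inv_cancel₀ ht, one_pow, mul_one]
  obtain ⟨d, hd, hg, hz⟩ := t_TOP K σ n (N + 1) (fun k => c (N - k))
    (fun t X Z ht => by
      rw [hrev X t ht, smul_pow, smul_mul_assoc, mul_smul_comm, hf.com])
    (fun t X ht => by
      rw [hrev X t ht, Matrix.trace_smul, hf.tr, smul_zero])
    (by
      obtain ⟨X, hX⟩ := hf.nz
      by_contra hcon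
      push Not at hcon
      apply hX
      have h1 := hc X 1
      simp only [one_smul] at h1
      rw [h1]
      refine sum_eq_zero fun k hk => ?_
      rw [mem_range] at hk
      have h2 := hcon (N - k) (by omega) X
      have e : N - (N - k) = k := by omega
      rw [e] at h2
      rw [h2, smul_zero])
  refine ⟨N - d, Nat.sub_le _ _, hg, fun k hk X => ?_⟩
  have h2 := hz (N - k) (by omega) (by omega) X
  have e : N - (N - k) = k := by omega
  rwa [e] at h2

/-- good polynomials of minimal degree are homogeneous and invariant under translations -/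
theorem minimal [Infinite K] (D : ℕ) (f : FreeAlgebra K σ) (hf : Good n f) (hD : f ∈ Sp K σ D)
    (hmin : ∀ (g : FreeAlgebra K σ) (E : ℕ), Good n g → g ∈ Sp K σ E → D ≤ E) :
    (∀ (X : σ → Matrix (Fin n) (Fin n) K) (s : K), ev f (fun i => s • X i) = s ^ D • ev f X) ∧
    ∀ (X : σ → Matrix (Fin n) (Fin n) K) (a : σ → K),
      ev f (fun i => X i + Matrix.scalar (Fin n) (a i)) = ev f X := by
  constructor
  · obtain ⟨c, h1, h2⟩ := comps (n := n) D f hD
    obtain ⟨d, hd, hg, hz⟩ := low_good D c f hf h2
    have hdD : d = D := le_antisymm hd (hmin _ _ hg (h1 d))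
    subst hdD
    have h3 : ∀ (X : σ → Matrix (Fin n) (Fin n) K) (s : K),
        ev f (fun i => s • X i) = s ^ d • ev (c d) X := by
      intro X s
      rw [h2, sum_range_succ, sum_eq_zero, zero_add]
      intro k hk
      rw [hz k (mem_range.1 hk), smul_zero]
    intro X s
    have h4 := h3 X 1
    simp only [one_smul, one_pow] at h4
    rw [h3, h4]
  · intro X a
    obtain ⟨c, h1, h2⟩ := trans (n := n) D f hD a
    obtain ⟨d, hd, hg, hz⟩ := t_TOP K σ n (D + 1) c
      (fun t X Z _ => by rw [← h2]; exact hf.com _ Z)
      (fun t X _ => by rw [← h2]; exact hf.tr _)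
      (by
        obtain ⟨X, hX⟩ := hf.nz
        by_contra hcon
        push Not at hcon
        apply hX
        have h3 := h2 X 0
        simp only [zero_smul, add_zero] at h3
        rw [h3]
        exact sum_eq_zero fun k hk => by rw [hcon k (mem_range.1 hk) X, smul_zero])
    have hd0 : d = 0 := by
      have := hmin _ _ hg (h1 d)
      by_contra hne
      by_cases hD0 : D = 0
      · omega
      · omega
    subst hd0
    have h3 : ∀ t : K, ev f (fun i => X i + t • Matrix.scalar (Fin n) (a i)) = ev (c 0) X := by
      intro t
      rw [h2, sum_range_succ', sum_eq_zero, zero_add, pow_zero, one_smul]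
      intro k hk
      rw [mem_range] at hk
      rw [hz (k + 1) (by omega) (by omega), smul_zero]
    have h4 := h3 1
    have h5 := h3 0
    simp only [one_smul, zero_smul, add_zero] at h4 h5
    rw [h4, h5]

end Pool.Agent.K1H41.NF.Low
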