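import Pool.Agent.K1H41.NF.Step

set_option autoImplicit false

namespace Pool.Agent.K1H41.NF

universe u v

open Finset Polynomial

variable {K : Type u} [Field K] {n : ℕ}

theorem eta2 (X : Fin 2 → Matrix (Fin n) (Fin n) K) : X = ![X 0, X 1] := by
  funext i
  fin_cases i <;> rfl

theorem ev_ι {σ : Type v} (i : σ) (X : σ → Matrix (Fin n) (Fin n) K) :
    ev (FreeAlgebra.ι K i) X = X i := by
  unfold ev
  rw [FreeAlgebra.lift_ι_apply]

theorem ev_zero {σ : Type v} (X : σ → Matrix (Fin n) (Fin n) K) :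
    ev (0 : FreeAlgebra K σ) X = 0 := by
  unfold ev
  rw [map_zero]

theorem ev_one {σ : Type v} (X : σ → Matrix (Fin n) (Fin n) K) :
    ev (1 : FreeAlgebra K σ) X = 1 := by
  unfold ev
  rw [map_one]

theorem ev_pow {σ : Type v} (f : FreeAlgebra K σ) (k : ℕ) (X : σ → Matrix (Fin n) (Fin n) K) :
    ev (f ^ k) X = ev f X ^ k := by
  unfold ev
  rw [map_pow]

theorem Af_two (a0 a1 b0 b1 : FreeAlgebra K (Fin 2)) (t : K)
    (X : Fin 2 → Matrix (Fin n) (Fin n) K) :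
    Af ![a0, a1] ![b0, b1] t X = ![ev a0 X + t • ev b0 X, ev a1 X + t • ev b1 X] := by
  funext i
  fin_cases i <;> rfl

/-- invariance under `y ↦ y + s x ^ j`, `j < k` -/
def Inv (n : ℕ) (f : FreeAlgebra K (Fin 2)) (k : ℕ) : Prop :=
  ∀ j < k, ∀ (s : K) (P Q : Matrix (Fin n) (Fin n) K), ev f ![P, Q + s • P ^ j] = ev f ![P, Q]

/-- invariance under `y ↦ y + h(x)` -/
def InvH (n : ℕ) (f : FreeAlgebra K (Fin 2)) : Prop :=
  ∀ (h : K[X]) (P Q : Matrix (Fin n) (Fin n) K), ev f ![P, Q + aeval P h] = ev f ![P, Q]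

def Tr (n : ℕ) (f : FreeAlgebra K (Fin 2)) : Prop :=
  ∀ (s : K) (P Q : Matrix (Fin n) (Fin n) K), ev f ![P + s • 1, Q] = ev f ![P, Q]

def Hx (n : ℕ) (f : FreeAlgebra K (Fin 2)) : Prop :=
  ∃ a : ℕ, ∀ (s : K) (P Q : Matrix (Fin n) (Fin n) K), ev f ![s • P, Q] = s ^ a • ev f ![P, Q]

def Hy (n : ℕ) (f : FreeAlgebra K (Fin 2)) : Prop :=
  ∃ b : ℕ, ∀ (s : K) (P Q : Matrix (Fin n) (Fin n) K), ev f ![P, s • Q] = s ^ b • ev f ![P, Q]

theorem stepA [Infinite K] (hFAM : S_FAM.{u, 0}) (hUNI : S_UNI.{u}) (hTOP : S_TOP.{u, 0})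
    (f : FreeAlgebra K (Fin 2)) (hf : Good n f) (k : ℕ) (hi : Inv n f k) :
    ∃ g : FreeAlgebra K (Fin 2), Good n g ∧ Inv n g (k + 1) := by
  have hA : ∀ (t : K) (P Q : Matrix (Fin n) (Fin n) K),
      Af ![FreeAlgebra.ι K 0, FreeAlgebra.ι K 1] ![0, FreeAlgebra.ι K 0 ^ k] t ![P, Q]
        = ![P, Q + t • P ^ k] := by
    intro t P Q
    rw [Af_two, ev_ι, ev_ι, ev_zero, ev_pow, ev_ι]
    simp
  obtain ⟨g, hg, -, h1, -, h3⟩ := step hFAM hUNI hTOP
    ![FreeAlgebra.ι K 0, FreeAlgebra.ι K 1] ![0, FreeAlgebra.ι K 0 ^ k] f hf 0 (by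
      intro X
      rw [eta2 X, hA]
      simp)
  refine ⟨g, hg, ?_⟩
  intro j hj s P Q
  rcases Nat.lt_succ_iff_lt_or_eq.1 hj with hjk | rfl
  · have := h3 ![P, Q] ![P, Q + s • P ^ j] 1 (by
      intro t _
      rw [hA, hA, one_smul, add_right_comm]
      exact hi j hjk s P _)
    rw [this, one_smul]
  · have := h1 (by
      intro s t X
      rw [eta2 X, hA, hA, hA, add_smul]
      congr 2
      abel_nf) s ![P, Q]
    rw [hA] at this
    exact this

theorem exists_inv [Infinite K] (hFAM : S_FAM.{u, 0}) (hUNI : S_UNI.{u}) (hTOP : S_TOP.{u, 0})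
    (f : FreeAlgebra K (Fin 2)) (hf : Good n f) (k : ℕ) :
    ∃ g : FreeAlgebra K (Fin 2), Good n g ∧ Inv n g k := by
  induction k with
  | zero => exact ⟨f, hf, fun j hj => absurd hj (by omega)⟩
  | succ k ih =>
    obtain ⟨g, hg, hi⟩ := ih
    exact stepA hFAM hUNI hTOP g hg k hi

theorem invH_of_inv (hn : 0 < n) (f : FreeAlgebra K (Fin 2)) (hi : Inv n f n) : InvH n f := by
  have h1 : ∀ (c : ℕ → K) (m : ℕ), m ≤ n → ∀ (P Q : Matrix (Fin n) (Fin n) K),
      ev f ![P, Q + ∑ i ∈ range m, c i • P ^ i] = ev f ![P, Q] := by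
    intro c m
    induction m with
    | zero => intro _ P Q; simp
    | succ m ih =>
      intro hm P Q
      rw [sum_range_succ, ← add_assoc, hi m (by omega)]
      exact ih (by omega) P Q
  intro h P Q
  rw [Matrix.aeval_eq_aeval_mod_charpoly P h]
  have hdeg : (h %ₘ P.charpoly).natDegree < n := by
    have h2 : P.charpoly.natDegree = n := by
      rw [Matrix.charpoly_natDegree_eq_dim, Fintype.card_fin]
    have h3 := natDegree_modByMonic_lt h P.charpoly_monic (by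
      intro h4
      rw [h4, natDegree_one] at h2
      omega)
    rwa [h2] at h3
  rw [aeval_eq_sum_range' hdeg]
  exact h1 _ n le_rfl P Q

theorem aeval_shift (h : K[X]) (P : Matrix (Fin n) (Fin n) K) (t : K) :
    aeval (P + t • 1) (h.comp (X - C t)) = aeval P h := by
  rw [aeval_comp]
  congr 1
  simp [Algebra.smul_def]

theorem aeval_scale (h : K[X]) (P : Matrix (Fin n) (Fin n) K) (t : K) (ht : t ≠ 0) :
    aeval (t • P) (h.comp (C t⁻¹ * X)) = aeval P h := by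
  rw [aeval_comp]
  congr 1
  rw [map_mul, aeval_C, aeval_X, ← Algebra.smul_def, smul_smul, inv_mul_cancel₀ ht, one_smul]

theorem stepB [Infinite K] (hFAM : S_FAM.{u, 0}) (hUNI : S_UNI.{u}) (hTOP : S_TOP.{u, 0})
    (f : FreeAlgebra K (Fin 2)) (hf : Good n f) (hi : InvH n f) :
    ∃ g : FreeAlgebra K (Fin 2), Good n g ∧ InvH n g ∧ Tr n g := by
  have hA : ∀ (t : K) (P Q : Matrix (Fin n) (Fin n) K),
      Af ![FreeAlgebra.ι K 0, FreeAlgebra.ι K 1] ![1, 0] t ![P, Q] = ![P + t • 1, Q] := by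
    intro t P Q
    rw [Af_two, ev_ι, ev_ι, ev_zero, ev_one]
    simp
  obtain ⟨g, hg, -, h1, -, h3⟩ := step hFAM hUNI hTOP
    ![FreeAlgebra.ι K 0, FreeAlgebra.ι K 1] ![1, 0] f hf 0 (by
      intro X
      rw [eta2 X, hA]
      simp)
  refine ⟨g, hg, ?_, ?_⟩
  · intro h P Q
    have := h3 ![P, Q] ![P, Q + aeval P h] 1 (by
      intro t _
      rw [hA, hA, one_smul, ← aeval_shift h P t]
      exact hi _ _ _)
    rw [this, one_smul]
  · intro s P Q
    have := h1 (by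
      intro s t X
      rw [eta2 X, hA, hA, hA, add_smul]
      congr 1
      abel_nf) s ![P, Q]
    rw [hA] at this
    exact this

theorem stepC [Infinite K] (hFAM : S_FAM.{u, 0}) (hUNI : S_UNI.{u}) (hTOP : S_TOP.{u, 0})
    (f : FreeAlgebra K (Fin 2)) (hf : Good n f) (hi : InvH n f) (ht : Tr n f) :
    ∃ g : FreeAlgebra K (Fin 2), Good n g ∧ InvH n g ∧ Tr n g ∧ Hx n g := by
  have hA : ∀ (t : K) (P Q : Matrix (Fin n) (Fin n) K),
      Af ![0, FreeAlgebra.ι K 1] ![FreeAlgebra.ι K 0, 0] t ![P, Q] = ![t • P, Q] := by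
    intro t P Q
    rw [Af_two, ev_ι, ev_ι, ev_zero]
    simp
  obtain ⟨g, hg, -, -, h2, h3⟩ := step hFAM hUNI hTOP
    ![0, FreeAlgebra.ι K 1] ![FreeAlgebra.ι K 0, 0] f hf 1 (by
      intro X
      rw [eta2 X, hA]
      simp)
  refine ⟨g, hg, ?_, ?_, ?_⟩
  · intro h P Q
    have := h3 ![P, Q] ![P, Q + aeval P h] 1 (by
      intro t ht0
      rw [hA, hA, one_smul, ← aeval_scale h P t ht0]
      exact hi _ _ _)
    rw [this, one_smul]
  · intro s P Q
    have := h3 ![P, Q] ![P + s • 1, Q] 1 (by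
      intro t _
      rw [hA, hA, one_smul, smul_add, smul_smul]
      exact ht _ _ _)
    rw [this, one_smul]
  · obtain ⟨d, hd⟩ := h2 (by
      intro s t X
      rw [eta2 X, hA, hA, hA, smul_smul])
    refine ⟨d, fun s P Q => ?_⟩
    rw [← hA, hd]

theorem stepD [Infinite K] (hFAM : S_FAM.{u, 0}) (hUNI : S_UNI.{u}) (hTOP : S_TOP.{u, 0})
    (f : FreeAlgebra K (Fin 2)) (hf : Good n f) (hi : InvH n f) (ht : Tr n f) (hx : Hx n f) :
    ∃ g : FreeAlgebra K (Fin 2), Good n g ∧ InvH n g ∧ Tr n g ∧ Hx n g ∧ Hy n g := by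
  have hA : ∀ (t : K) (P Q : Matrix (Fin n) (Fin n) K),
      Af ![FreeAlgebra.ι K 0, 0] ![0, FreeAlgebra.ι K 1] t ![P, Q] = ![P, t • Q] := by
    intro t P Q
    rw [Af_two, ev_ι, ev_ι, ev_zero]
    simp
  obtain ⟨g, hg, -, -, h2, h3⟩ := step hFAM hUNI hTOP
    ![FreeAlgebra.ι K 0, 0] ![0, FreeAlgebra.ι K 1] f hf 1 (by
      intro X
      rw [eta2 X, hA]
      simp)
  refine ⟨g, hg, ?_, ?_, ?_, ?_⟩
  · intro h P Q
    have := h3 ![P, Q] ![P, Q + aeval P h] 1 (by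
      intro t _
      rw [hA, hA, one_smul, smul_add]
      have e : t • aeval P h = aeval P (C t * h) := by
        rw [map_mul, aeval_C, ← Algebra.smul_def]
      rw [e]
      exact hi _ _ _)
    rw [this, one_smul]
  · intro s P Q
    have := h3 ![P, Q] ![P + s • 1, Q] 1 (by
      intro t _
      rw [hA, hA, one_smul]
      exact ht _ _ _)
    rw [this, one_smul]
  · obtain ⟨a, ha⟩ := hx
    refine ⟨a, fun s P Q => ?_⟩
    exact h3 ![P, Q] ![s • P, Q] (s ^ a) (by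
      intro t _
      rw [hA, hA]
      exact ha _ _ _)
  · obtain ⟨d, hd⟩ := h2 (by
      intro s t X
      rw [eta2 X, hA, hA, hA, smul_smul])
    refine ⟨d, fun s P Q => ?_⟩
    rw [← hA, hd]

theorem ev_lift {σ : Type v} (w : σ → FreeAlgebra K (Fin 2)) (f : FreeAlgebra K σ)
    (X : Fin 2 → Matrix (Fin n) (Fin n) K) :
    ev (FreeAlgebra.lift K w f) X = ev f (fun i => ev (w i) X) := by
  unfold ev
  have : (FreeAlgebra.lift K X).comp (FreeAlgebra.lift K w)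
      = FreeAlgebra.lift K (fun i => FreeAlgebra.lift K X (w i)) := by
    apply FreeAlgebra.hom_ext
    funext i
    simp
  exact DFunLike.congr_fun this f

theorem two_var (hVAR : S_VAR.{u}) (hn : 0 < n) {σ : Type v} (f : FreeAlgebra K σ)
    (hf : Good n f) : ∃ g : FreeAlgebra K (Fin 2), Good n g := by
  obtain ⟨X0, h0⟩ := hVAR K n hn
  obtain ⟨A, hA⟩ := hf.nz
  choose w hw using fun i => h0 (A i)
  refine ⟨FreeAlgebra.lift K w f, ⟨?_, ?_, X0, ?_⟩⟩
  · intro X Z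
    rw [ev_lift]
    exact hf.com _ Z
  · intro X
    rw [ev_lift]
    exact hf.tr _
  · rw [ev_lift]
    have : (fun i => ev (w i) X0) = A := funext hw
    rw [this]
    exact hA

theorem normal [Infinite K] (hVAR : S_VAR.{u}) (hFAM : S_FAM.{u, 0}) (hUNI : S_UNI.{u})
    (hTOP : S_TOP.{u, 0}) (hn : 0 < n) {σ : Type v} (f : FreeAlgebra K σ) (hf : Good n f) :
    ∃ g : FreeAlgebra K (Fin 2), Good n g ∧ InvH n g ∧ Tr n g ∧ Hx n g ∧ Hy n g := by
  obtain ⟨f1, h1⟩ := two_var hVAR hn f hf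
  obtain ⟨f2, h2, h2'⟩ := exists_inv hFAM hUNI hTOP f1 h1 n
  obtain ⟨f3, h3, h3', h3''⟩ := stepB hFAM hUNI hTOP f2 h2 (invH_of_inv hn f2 h2')
  obtain ⟨f4, a1, a2, a3, a4⟩ := stepC hFAM hUNI hTOP f3 h3 h3' h3''
  exact stepD hFAM hUNI hTOP f4 a1 a2 a3 a4

end Pool.Agent.K1H41.NF
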