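import Pool.Agent.K1H41.NF.Stm

set_option autoImplicit false

namespace Pool.Agent.K1H41.NF

universe u v

open Finset

variable {K : Type u} [Field K] {σ : Type v} {n : ℕ}

/-- words of length at most `D` span -/
def Sp (K : Type u) [Field K] (σ : Type v) (D : ℕ) : Submodule K (FreeAlgebra K σ) :=
  Submodule.span K {w : FreeAlgebra K σ | ∃ l : List σ, l.length ≤ D ∧
    w = (l.map (FreeAlgebra.ι K)).prod}

/-- the family of substitutions -/
noncomputable def Af (a b : σ → FreeAlgebra K σ) (t : K) (X : σ → Matrix (Fin n) (Fin n) K) :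
    σ → Matrix (Fin n) (Fin n) K := fun i => ev (a i) X + t • ev (b i) X

theorem step_add [Infinite K] (hUNI : S_UNI.{u}) {N d : ℕ} {c : ℕ → FreeAlgebra K σ}
    (hd : d < N) {f : FreeAlgebra K σ} {A : K → (σ → Matrix (Fin n) (Fin n) K) → σ →
      Matrix (Fin n) (Fin n) K}
    (hc : ∀ t X, ev f (A t X) = ∑ k ∈ range N, t ^ k • ev (c k) X)
    (hz : ∀ k < N, d < k → ∀ X : σ → Matrix (Fin n) (Fin n) K, ev (c k) X = 0)
    (hA : ∀ s t X, A t (A s X) = A (t + s) X) (s : K) (X : σ → Matrix (Fin n) (Fin n) K) :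
    ev (c d) (A s X) = ev (c d) X := by
  have h := hUNI K n N (fun k => ev (c k) (A s X))
    (fun j => ∑ k ∈ range N, ((k.choose j : K) * s ^ (k - j)) • ev (c k) X) (by
      intro t _
      rw [← hc, hA, hc]
      simp_rw [smul_sum, smul_smul]
      rw [sum_comm]
      refine sum_congr rfl fun k hk => ?_
      rw [add_pow, sum_smul]
      have hsub : range (k + 1) ⊆ range N := by
        intro x hx
        rw [mem_range] at hx hk ⊢
        omega
      rw [← sum_subset hsub]
      · refine sum_congr rfl fun j _ => ?_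
        congr 1
        ring
      · intro j _ hj
        rw [mem_range, not_lt] at hj
        rw [Nat.choose_eq_zero_of_lt (by omega)]
        simp) d hd
  rw [h, sum_eq_single d]
  · simp
  · intro k hk hkd
    rw [mem_range] at hk
    rcases lt_or_gt_of_ne hkd with h1 | h1
    · rw [Nat.choose_eq_zero_of_lt h1]
      simp
    · rw [hz k hk h1, smul_zero]
  · intro h1
    exact absurd (mem_range.2 hd) h1

theorem step_mul [Infinite K] (hUNI : S_UNI.{u}) {N d : ℕ} {c : ℕ → FreeAlgebra K σ}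
    (hd : d < N) {f : FreeAlgebra K σ} {A : K → (σ → Matrix (Fin n) (Fin n) K) → σ →
      Matrix (Fin n) (Fin n) K}
    (hc : ∀ t X, ev f (A t X) = ∑ k ∈ range N, t ^ k • ev (c k) X)
    (hA : ∀ s t X, A t (A s X) = A (t * s) X) (s : K) (X : σ → Matrix (Fin n) (Fin n) K) :
    ev (c d) (A s X) = s ^ d • ev (c d) X := by
  have h := hUNI K n N (fun k => ev (c k) (A s X)) (fun k => s ^ k • ev (c k) X) (by
      intro t _
      rw [← hc, hA, hc]
      refine sum_congr rfl fun k _ => ?_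
      rw [smul_smul, mul_pow]) d hd
  exact h

theorem step_nor [Infinite K] (hUNI : S_UNI.{u}) {N d : ℕ} {c : ℕ → FreeAlgebra K σ}
    (hd : d < N) {f : FreeAlgebra K σ} {A : K → (σ → Matrix (Fin n) (Fin n) K) → σ →
      Matrix (Fin n) (Fin n) K}
    (hc : ∀ t X, ev f (A t X) = ∑ k ∈ range N, t ^ k • ev (c k) X)
    (X Y : σ → Matrix (Fin n) (Fin n) K) (χ : K)
    (hB : ∀ t : K, t ≠ 0 → ev f (A t Y) = χ • ev f (A t X)) :
    ev (c d) Y = χ • ev (c d) X := by
  have h := hUNI K n N (fun k => ev (c k) Y) (fun k => χ • ev (c k) X) (by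
      intro t ht
      rw [← hc, hB t ht, hc, smul_sum]
      refine sum_congr rfl fun k _ => ?_
      rw [smul_smul, smul_smul, mul_comm]) d hd
  exact h

/-- the top coefficient of a family of substitutions in a good polynomial -/
theorem step [Infinite K] (hFAM : S_FAM.{u, v}) (hUNI : S_UNI.{u}) (hTOP : S_TOP.{u, v})
    (a b : σ → FreeAlgebra K σ) (f : FreeAlgebra K σ) (hf : Good n f) (t0 : K)
    (h0 : ∀ X : σ → Matrix (Fin n) (Fin n) K, Af a b t0 X = X) :
    ∃ g : FreeAlgebra K σ, Good n g ∧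
      (∀ D : ℕ, f ∈ Sp K σ D → (∀ i, a i ∈ Sp K σ 1) → (∀ i, b i ∈ Sp K σ 1) → g ∈ Sp K σ D) ∧
      ((∀ (s t : K) (X : σ → Matrix (Fin n) (Fin n) K),
          Af a b t (Af a b s X) = Af a b (t + s) X) →
        ∀ (s : K) (X : σ → Matrix (Fin n) (Fin n) K), ev g (Af a b s X) = ev g X) ∧
      ((∀ (s t : K) (X : σ → Matrix (Fin n) (Fin n) K),
          Af a b t (Af a b s X) = Af a b (t * s) X) →
        ∃ d : ℕ, ∀ (s : K) (X : σ → Matrix (Fin n) (Fin n) K),
          ev g (Af a b s X) = s ^ d • ev g X) ∧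
      (∀ (X Y : σ → Matrix (Fin n) (Fin n) K) (χ : K),
        (∀ t : K, t ≠ 0 → ev f (Af a b t Y) = χ • ev f (Af a b t X)) →
          ev g Y = χ • ev g X) := by
  obtain ⟨N, c, hcN, hc, hdeg⟩ := hFAM K σ a b f
  have hc' : ∀ (t : K) (X : σ → Matrix (Fin n) (Fin n) K),
      ev f (Af a b t X) = ∑ k ∈ range N, t ^ k • ev (c k) X := fun t X => hc n X t
  obtain ⟨d, hd, hg, hz⟩ := hTOP K σ n N c
    (fun t X Z _ => by rw [← hc']; exact hf.com _ Z)
    (fun t X _ => by rw [← hc']; exact hf.tr _)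
    (by
      obtain ⟨X, hX⟩ := hf.nz
      by_contra hcon
      push Not at hcon
      apply hX
      rw [← h0 X, hc']
      exact sum_eq_zero fun k hk => by rw [hcon k (mem_range.1 hk) X, smul_zero])
  refine ⟨c d, hg, ?_, ?_, ?_, ?_⟩
  · intro D h1 h2 h3
    exact hdeg D h1 h2 h3 d
  · intro hA s X
    exact step_add hUNI hd hc' hz hA s X
  · intro hA
    exact ⟨d, fun s X => step_mul hUNI hd hc' hA s X⟩
  · intro X Y χ hB
    exact step_nor hUNI hd hc' X Y χ hB

end Pool.Agent.K1H41.NF
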