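import Mathlib

/-!
# Normal forms of `n`-central polynomials: definitions and statements of the parts
-/

set_option autoImplicit false

namespace Pool.Agent.K1H41.NF

universe u v

/-- Every value of `f` on `n × n` matrices over `K` is a scalar matrix. -/
def ScalarValued {K : Type u} [Field K] {σ : Type v} (n : ℕ) (f : FreeAlgebra K σ) : Prop :=
  ∀ X : σ → Matrix (Fin n) (Fin n) K, ∃ c : K, FreeAlgebra.lift K X f = Matrix.scalar (Fin n) c

/-- `f` is central for `M_n(K)`: all values are scalar and `f` is not identically zero. -/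
def IsCentral {K : Type u} [Field K] {σ : Type v} (n : ℕ) (f : FreeAlgebra K σ) : Prop :=
  ScalarValued n f ∧ ∃ X : σ → Matrix (Fin n) (Fin n) K, FreeAlgebra.lift K X f ≠ 0

/-- `f` is `ν`-central for `M_n(K)`: `ν` is the least positive integer with `f ^ ν` central. -/
def IsNuCentral {K : Type u} [Field K] {σ : Type v} (n ν : ℕ) (f : FreeAlgebra K σ) : Prop :=
  0 < ν ∧ IsCentral n (f ^ ν) ∧ ∀ μ : ℕ, 0 < μ → IsCentral n (f ^ μ) → ν ≤ μ

/-- the value of `f` at the tuple `X` of matrices -/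
noncomputable def ev {K : Type u} [Field K] {σ : Type v} {n : ℕ} (f : FreeAlgebra K σ)
    (X : σ → Matrix (Fin n) (Fin n) K) : Matrix (Fin n) (Fin n) K := FreeAlgebra.lift K X f

/-- the working form of `n`-central: the `n`-th powers of the values commute with everything, the
traces are zero, not all values are zero -/
structure Good {K : Type u} [Field K] {σ : Type v} (n : ℕ) (f : FreeAlgebra K σ) : Prop where
  com : ∀ (X : σ → Matrix (Fin n) (Fin n) K) (Z : Matrix (Fin n) (Fin n) K),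
    ev f X ^ n * Z = Z * ev f X ^ n
  tr : ∀ X : σ → Matrix (Fin n) (Fin n) K, (ev f X).trace = 0
  nz : ∃ X : σ → Matrix (Fin n) (Fin n) K, ev f X ≠ 0

/-- NG. `n`-central implies good -/
def S_NG : Prop := ∀ (K : Type u) [Field K] [Infinite K] (σ : Type v) (n : ℕ), n.Prime →
  (n : K) ≠ 0 → ∀ f : FreeAlgebra K σ, IsNuCentral n n f → Good n f

/-- GN. good implies `n`-central -/
def S_GN : Prop := ∀ (K : Type u) [Field K] [Infinite K] (σ : Type v) (n : ℕ), n.Prime →
  (n : K) ≠ 0 → ∀ f : FreeAlgebra K σ, Good n f → IsNuCentral n n f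

/-- VAR. reduction to two variables: any tuple of matrices consists of values of polynomials in two
fixed matrices -/
def S_VAR : Prop := ∀ (K : Type u) [Field K] (n : ℕ), 0 < n →
  ∃ X0 : Fin 2 → Matrix (Fin n) (Fin n) K, ∀ A : Matrix (Fin n) (Fin n) K,
    ∃ w : FreeAlgebra K (Fin 2), ev w X0 = A

/-- FAM. one-parameter families of substitutions `x_i ↦ a_i + t b_i` -/
def S_FAM : Prop := ∀ (K : Type u) [Field K] (σ : Type v) (a b : σ → FreeAlgebra K σ)
  (f : FreeAlgebra K σ), ∃ (N : ℕ) (c : ℕ → FreeAlgebra K σ), (∀ k, N ≤ k → c k = 0) ∧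
    (∀ (n : ℕ) (X : σ → Matrix (Fin n) (Fin n) K) (t : K),
      ev f (fun i => ev (a i) X + t • ev (b i) X) = ∑ k ∈ Finset.range N, t ^ k • ev (c k) X) ∧
    (∀ D : ℕ, f ∈ Submodule.span K {w : FreeAlgebra K σ | ∃ l : List σ, l.length ≤ D ∧
        w = (l.map (FreeAlgebra.ι K)).prod} →
      (∀ i, a i ∈ Submodule.span K {w : FreeAlgebra K σ | ∃ l : List σ, l.length ≤ 1 ∧
        w = (l.map (FreeAlgebra.ι K)).prod}) →
      (∀ i, b i ∈ Submodule.span K {w : FreeAlgebra K σ | ∃ l : List σ, l.length ≤ 1 ∧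
        w = (l.map (FreeAlgebra.ι K)).prod}) →
      ∀ k, c k ∈ Submodule.span K {w : FreeAlgebra K σ | ∃ l : List σ, l.length ≤ D ∧
        w = (l.map (FreeAlgebra.ι K)).prod})

/-- UNI. uniqueness of the coefficients of a polynomial in `t` with matrix coefficients -/
def S_UNI : Prop := ∀ (K : Type u) [Field K] [Infinite K] (n N : ℕ)
  (a b : ℕ → Matrix (Fin n) (Fin n) K),
  (∀ t : K, t ≠ 0 → ∑ k ∈ Finset.range N, t ^ k • a k = ∑ k ∈ Finset.range N, t ^ k • b k) →
  ∀ k, k < N → a k = b k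

/-- TOP. the top coefficient of a good family is good -/
def S_TOP : Prop := ∀ (K : Type u) [Field K] [Infinite K] (σ : Type v) (n N : ℕ)
  (c : ℕ → FreeAlgebra K σ),
  (∀ (t : K) (X : σ → Matrix (Fin n) (Fin n) K) (Z : Matrix (Fin n) (Fin n) K), t ≠ 0 →
    (∑ k ∈ Finset.range N, t ^ k • ev (c k) X) ^ n * Z
      = Z * (∑ k ∈ Finset.range N, t ^ k • ev (c k) X) ^ n) →
  (∀ (t : K) (X : σ → Matrix (Fin n) (Fin n) K), t ≠ 0 →
    (∑ k ∈ Finset.range N, t ^ k • ev (c k) X).trace = 0) →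
  (∃ k < N, ∃ X : σ → Matrix (Fin n) (Fin n) K, ev (c k) X ≠ 0) →
  ∃ d < N, Good n (c d) ∧ ∀ k < N, d < k → ∀ X : σ → Matrix (Fin n) (Fin n) K, ev (c k) X = 0

/-- CYC. every matrix commutes with a matrix that has a cyclic vector -/
def S_CYC : Prop := ∀ (K : Type u) [Field K] [Infinite K] (n : ℕ) (Z : Matrix (Fin n) (Fin n) K),
  ∃ (R : Matrix (Fin n) (Fin n) K) (v : Fin n → K), R * Z = Z * R ∧
    LinearIndependent K (fun k : Fin n => (R ^ (k : ℕ)).mulVec v)

/-- LIN. `X + t R` has the cyclic vector `v` for almost all `t`; a matrix commuting with a matrix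
that has a cyclic vector is a polynomial in it -/
def S_LIN : Prop := ∀ (K : Type u) [Field K] (n : ℕ) (X R : Matrix (Fin n) (Fin n) K)
  (v : Fin n → K), LinearIndependent K (fun k : Fin n => (R ^ (k : ℕ)).mulVec v) →
  {t : K | ¬ ∀ Z : Matrix (Fin n) (Fin n) K, Z * (X + t • R) = (X + t • R) * Z →
    ∃ h : Polynomial K, Z = Polynomial.aeval (X + t • R) h}.Finite

end Pool.Agent.K1H41.NF
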