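import Pool.Agent.K1H41.NF.Stm

/-!
# Every matrix commutes with a matrix that has a cyclic vector
-/

set_option autoImplicit false

open Polynomial Module

namespace Pool.Agent.K1H41.NF

universe u v

namespace Cyc

/-- shifts avoiding a finite bad set of differences -/
theorem exists_shift {K : Type u} [Field K] [Infinite K] {L : Type v} [Field L] [Algebra K L]
    {ι : Type u} [DecidableEq ι] (D : Set L) (hD : D.Finite) (S : Finset ι) :
    ∃ s : ι → K, ∀ i ∈ S, ∀ j ∈ S, i ≠ j → algebraMap K L (s i) - algebraMap K L (s j) ∉ D := by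
  induction S using Finset.induction_on with
  | empty => exact ⟨fun _ => 0, by simp⟩
  | insert a S ha ih =>
    obtain ⟨s, hs⟩ := ih
    have hinj : Function.Injective (algebraMap K L) := (algebraMap K L).injective
    have hfin : (⋃ j ∈ S, ((fun x : K => algebraMap K L x - algebraMap K L (s j)) ⁻¹' D ∪
        (fun x : K => algebraMap K L (s j) - algebraMap K L x) ⁻¹' D)).Finite := by
      refine Set.Finite.biUnion S.finite_toSet fun j _ => Set.Finite.union ?_ ?_
      · refine hD.preimage fun x _ y _ h => hinj ?_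
        simpa using h
      · refine hD.preimage fun x _ y _ h => hinj ?_
        simpa using h
    obtain ⟨c, hc⟩ := hfin.infinite_compl.nonempty
    simp only [Set.mem_compl_iff, Set.mem_iUnion, Set.mem_union, Set.mem_preimage, not_exists,
      not_or] at hc
    refine ⟨Function.update s a c, fun i hi j hj hij => ?_⟩
    rcases Finset.mem_insert.1 hi with rfl | hi'
    · rcases Finset.mem_insert.1 hj with rfl | hj'
      · exact absurd rfl hij
      · rw [Function.update_self, Function.update_of_ne (by rintro rfl; exact ha hj')]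
        exact (hc j hj').1
    · rcases Finset.mem_insert.1 hj with rfl | hj'
      · rw [Function.update_self, Function.update_of_ne (by rintro rfl; exact ha hi')]
        exact (hc i hi').2
      · rw [Function.update_of_ne (by rintro rfl; exact ha hi'),
          Function.update_of_ne (by rintro rfl; exact ha hj')]
        exact hs i hi' j hj' hij

/-- the shifted polynomials are pairwise coprime for suitable shifts -/
theorem exists_coprime {K : Type u} [Field K] [Infinite K] {ι : Type u} [Fintype ι]
    (q : ι → K[X]) (hq : ∀ i, q i ≠ 0) :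
    ∃ s : ι → K, Pairwise (fun i j => IsCoprime ((q i).comp (X - C (s i)))
      ((q j).comp (X - C (s j)))) := by
  classical
  let L := AlgebraicClosure K
  let rt : ι → Set L := fun i => {a | aeval a (q i) = 0}
  have hrt : ∀ i, (rt i).Finite := by
    intro i
    have h1 : (rt i) = ((q i).rootSet L : Set L) := by
      ext a
      simp only [rt, Set.mem_ofPred_eq, mem_rootSet]
      exact ⟨fun h => ⟨hq i, h⟩, fun h => h.2⟩
    rw [h1]
    exact (q i).rootSet_finite L
  let D : Set L := ⋃ i, ⋃ j, (fun x : L × L => x.2 - x.1) '' (rt i ×ˢ rt j)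
  have hD : D.Finite := Set.finite_iUnion fun i => Set.finite_iUnion fun j =>
    ((hrt i).prod (hrt j)).image _
  obtain ⟨s, hs⟩ := exists_shift (K := K) D hD (Finset.univ : Finset ι)
  refine ⟨s, fun i j hij => ?_⟩
  refine (isCoprime_iff_aeval_ne_zero_of_isAlgClosed K L _ _).2 ?_
  intro a
  by_contra hcon
  push Not at hcon
  obtain ⟨h1, h2⟩ := hcon
  rw [aeval_comp] at h1 h2
  simp only [map_sub, aeval_X, aeval_C] at h1 h2
  refine hs i (Finset.mem_univ _) j (Finset.mem_univ _) hij ?_
  simp only [D, Set.mem_iUnion]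
  refine ⟨i, j, (a - algebraMap K L (s i), a - algebraMap K L (s j)), ⟨h1, h2⟩, ?_⟩
  simp

end Cyc

open Cyc

theorem t_CYC : S_CYC.{u} := by
  intro K _ _ n Z
  classical
  let f : (Fin n → K) →ₗ[K] (Fin n → K) := Matrix.toLin' Z
  have htor : IsTorsion K[X] (AEval' f) := AEval.isTorsion_of_finiteDimensional K (Fin n → K) f
  obtain ⟨ι, _, p, hp, e, ⟨E0⟩⟩ := equiv_directSum_of_isTorsion htor
  let N := ∀ i, K[X] ⧸ (K[X] ∙ (p i ^ e i))
  let E : AEval' f ≃ₗ[K[X]] N := E0.trans (DirectSum.linearEquivFunOnFintype K[X] ι _)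
  let q : ι → K[X] := fun i => p i ^ e i
  have hq : ∀ i, q i ≠ 0 := fun i => pow_ne_zero _ (hp i).ne_zero
  obtain ⟨s, hs⟩ := exists_coprime q hq
  let T : N →ₗ[K[X]] N := LinearMap.pi fun i => (X + C (s i)) • LinearMap.proj i
  let S : AEval' f →ₗ[K[X]] AEval' f := E.symm.toLinearMap ∘ₗ T ∘ₗ E.toLinearMap
  let wk : ℕ → N := fun k i => Submodule.Quotient.mk ((X + C (s i)) ^ k)
  let o : (Fin n → K) ≃ₗ[K] AEval' f := AEval'.of f
  let Rl : (Fin n → K) →ₗ[K] (Fin n → K) :=
    o.symm.toLinearMap ∘ₗ (S.restrictScalars K) ∘ₗ o.toLinearMap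
  let v0 : Fin n → K := o.symm (E.symm (wk 0))
  have hRl : ∀ v, (LinearMap.toMatrix' Rl).mulVec v = Rl v := by
    intro v
    rw [← Matrix.toLin'_apply, Matrix.toLin'_toMatrix']
  have hRl' : ∀ m : AEval' f, Rl (o.symm m) = o.symm (S m) := by
    intro m
    show o.symm (S (o (o.symm m))) = o.symm (S m)
    rw [LinearEquiv.apply_symm_apply]
  have hcomm : ∀ v, Rl (f v) = f (Rl v) := by
    intro v
    show o.symm (S (o (f v))) = f (o.symm (S (o v)))
    have h1 : o (f v) = (X : K[X]) • o v := (AEval'.X_smul_of f v).symm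
    rw [h1, map_smul]
    exact AEval'.of_symm_X_smul f _
  have hTw : ∀ k, T (wk k) = wk (k + 1) := by
    intro k
    funext i
    show (X + C (s i)) • (Submodule.Quotient.mk ((X + C (s i)) ^ k) :
      K[X] ⧸ (K[X] ∙ (p i ^ e i))) = Submodule.Quotient.mk ((X + C (s i)) ^ (k + 1))
    rw [← Submodule.Quotient.mk_smul, smul_eq_mul, pow_succ']
  have hpow : ∀ k, ((LinearMap.toMatrix' Rl) ^ k).mulVec v0 = o.symm (E.symm (wk k)) := by
    intro k
    induction k with
    | zero => rw [pow_zero, Matrix.one_mulVec]
    | succ k ih =>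
      rw [pow_succ', ← Matrix.mulVec_mulVec, ih, hRl, hRl']
      congr 1
      show E.symm (T (E (E.symm (wk k)))) = _
      rw [LinearEquiv.apply_symm_apply, hTw]
  have hdeg : n = ∑ i, (q i).natDegree := by
    have h1 : finrank K (Fin n → K) = finrank K (AEval' f) := LinearEquiv.finrank_eq o
    have h2 : finrank K (AEval' f) = finrank K N :=
      LinearEquiv.finrank_eq (E.restrictScalars K)
    have h3 : finrank K N = ∑ i, finrank K (K[X] ⧸ (K[X] ∙ (p i ^ e i))) := by
      have hN : Module.Finite K N := Module.Finite.equiv (E.restrictScalars K)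
      have : ∀ i, Module.Finite K (K[X] ⧸ (K[X] ∙ (p i ^ e i))) := fun i =>
        Module.Finite.of_surjective (LinearMap.proj i : N →ₗ[K] (K[X] ⧸ (K[X] ∙ (p i ^ e i))))
          (LinearMap.proj_surjective i)
      exact Module.finrank_pi_fintype K
    have h4 : ∀ i, finrank K (K[X] ⧸ (K[X] ∙ (p i ^ e i))) = (q i).natDegree := fun i =>
      finrank_quotient_span_eq_natDegree
    rw [Module.finrank_fin_fun] at h1
    rw [h1, h2, h3]
    exact Finset.sum_congr rfl fun i _ => h4 i
  refine ⟨LinearMap.toMatrix' Rl, v0, ?_, ?_⟩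
  · apply Matrix.toLin'.injective
    refine LinearMap.ext fun v => ?_
    rw [Matrix.toLin'_mul, Matrix.toLin'_mul, Matrix.toLin'_toMatrix']
    exact hcomm v
  · rw [Fintype.linearIndependent_iff]
    intro g hg
    have h0 : ∑ k : Fin n, (C (g k) : K[X]) • wk k = 0 := by
      have h1 : E (o (∑ k : Fin n, g k • ((LinearMap.toMatrix' Rl) ^ (k : ℕ)).mulVec v0)) = 0 := by
        rw [hg, map_zero, map_zero]
      rw [map_sum, map_sum] at h1
      rw [← h1]
      refine Finset.sum_congr rfl fun k _ => ?_
      rw [hpow, map_smul, LinearEquiv.apply_symm_apply, ← AEval.C_smul, map_smul,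
        LinearEquiv.apply_symm_apply]
    set h : K[X] := ∑ k : Fin n, C (g k) * X ^ (k : ℕ) with hh
    have h1 : ∀ i, q i ∣ h.comp (X + C (s i)) := by
      intro i
      have h2 := congrFun h0 i
      rw [Finset.sum_apply] at h2
      have h3 : (Submodule.Quotient.mk (h.comp (X + C (s i))) :
          K[X] ⧸ (K[X] ∙ (p i ^ e i))) = 0 := by
        rw [hh, Polynomial.sum_comp]
        refine Eq.trans ?_ h2
        rw [← Submodule.mkQ_apply, map_sum]
        refine Finset.sum_congr rfl fun k _ => ?_
        rw [Submodule.mkQ_apply, mul_comp, C_comp, pow_comp, X_comp]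
        rfl
      rw [Submodule.Quotient.mk_eq_zero] at h3
      exact Ideal.mem_span_singleton.1 h3
    have h2 : ∀ i, (q i).comp (X - C (s i)) ∣ h := by
      intro i
      obtain ⟨r, hr⟩ := h1 i
      refine ⟨r.comp (X - C (s i)), ?_⟩
      rw [← mul_comp, ← hr, comp_assoc]
      simp
    have h3 : ∏ i, (q i).comp (X - C (s i)) ∣ h :=
      Fintype.prod_dvd_of_coprime hs h2
    have h4 : (∏ i, (q i).comp (X - C (s i))).natDegree = n := by
      rw [natDegree_prod]
      · rw [hdeg]
        refine Finset.sum_congr rfl fun i _ => ?_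
        rw [natDegree_comp, natDegree_X_sub_C, mul_one]
      · intro i _ h5
        have h6 : ((q i).comp (X - C (s i))).comp (X + C (s i)) = 0 := by rw [h5, zero_comp]
        rw [comp_assoc] at h6
        simp at h6
        exact hq i h6
    have h5 : h = 0 := by
      by_contra hne
      have h6 := natDegree_le_of_dvd h3 hne
      have h7 : h.degree < n := degree_sum_fin_lt g
      rw [h4] at h6
      have h8 := (natDegree_lt_iff_degree_lt hne).2 h7
      omega
    intro k
    have h6 : h.coeff k = g k := by
      rw [hh, finsetSum_coeff]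
      simp only [coeff_C_mul, coeff_X_pow]
      rw [Finset.sum_eq_single k]
      · simp
      · intro b _ hb
        have : (k : ℕ) ≠ (b : ℕ) := fun hc => hb (Fin.ext hc.symm)
        simp [this]
      · simp
    rw [← h6, h5, coeff_zero]

end Pool.Agent.K1H41.NF
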