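import Pool.Agent.K1H41.NF.Stm

/-!
# Centralisers of `X + t R`
-/

set_option autoImplicit false

namespace Pool.Agent.K1H41.NF

open Matrix Polynomial

universe u

lemma lin_commutant {K : Type u} [Field K] {n : ℕ} (B Z : Matrix (Fin n) (Fin n) K)
    (v : Fin n → K) (hB : LinearIndependent K (fun k : Fin n => (B ^ (k : ℕ)).mulVec v))
    (hZ : Z * B = B * Z) : ∃ h : Polynomial K, Z = Polynomial.aeval B h := by
  have htop : Submodule.span K (Set.range (fun k : Fin n => (B ^ (k : ℕ)).mulVec v)) = ⊤ :=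
    hB.span_eq_top_of_card_eq_finrank' (by simp)
  have hmem : Z.mulVec v ∈ Submodule.span K
      (Set.range (fun k : Fin n => (B ^ (k : ℕ)).mulVec v)) := by
    rw [htop]
    exact Submodule.mem_top
  obtain ⟨c, hc⟩ := (Submodule.mem_span_range_iff_exists_fun K).1 hmem
  refine ⟨∑ k : Fin n, Polynomial.C (c k) * Polynomial.X ^ (k : ℕ), ?_⟩
  set H : Matrix (Fin n) (Fin n) K :=
    Polynomial.aeval B (∑ k : Fin n, Polynomial.C (c k) * Polynomial.X ^ (k : ℕ)) with hH
  have hHe : H = ∑ k : Fin n, c k • B ^ (k : ℕ) := by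
    rw [hH, map_sum]
    refine Finset.sum_congr rfl fun k _ => ?_
    rw [map_mul, Polynomial.aeval_C, map_pow, Polynomial.aeval_X, Algebra.smul_def]
  have hHv : H.mulVec v = Z.mulVec v := by
    rw [← hc, hHe, Matrix.sum_mulVec]
    refine Finset.sum_congr rfl fun k _ => ?_
    rw [Matrix.smul_mulVec]
  have hHB : Commute H B := by
    rw [hHe]
    exact Commute.sum_left _ _ _ fun k _ => ((Commute.refl B).pow_left _).smul_left _
  have hZB : Commute Z B := hZ
  have hlin : Z.mulVecLin = H.mulVecLin := by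
    refine LinearMap.ext_on_range htop fun k => ?_
    simp only [Matrix.mulVecLin_apply, Matrix.mulVec_mulVec]
    rw [(hZB.pow_right (k : ℕ)).eq, (hHB.pow_right (k : ℕ)).eq, ← Matrix.mulVec_mulVec,
      ← Matrix.mulVec_mulVec, hHv]
  have h2 : Matrix.toLin' Z = Matrix.toLin' H := by
    ext1
    rw [Matrix.toLin'_apply']
    rw [Matrix.toLin'_apply', hlin]
  exact Matrix.toLin'.injective h2

/-- the matrix with the rows `B ^ k v` -/
def rowsOf {A : Type u} [CommRing A] {n : ℕ} (B : Matrix (Fin n) (Fin n) A) (v : Fin n → A) :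
    Matrix (Fin n) (Fin n) A := fun k i => ((B ^ (k : ℕ)).mulVec v) i

lemma lin_iff_det {K : Type u} [Field K] {n : ℕ} (B : Matrix (Fin n) (Fin n) K) (v : Fin n → K) :
    LinearIndependent K (fun k : Fin n => (B ^ (k : ℕ)).mulVec v) ↔ (rowsOf B v).det ≠ 0 := by
  have h1 := Matrix.linearIndependent_rows_iff_isUnit (A := rowsOf B v)
  rw [Matrix.isUnit_iff_isUnit_det, isUnit_iff_ne_zero] at h1
  exact h1

lemma rowsOf_map {A B : Type u} [CommRing A] [CommRing B] (f : A →+* B) {n : ℕ}
    (M : Matrix (Fin n) (Fin n) A) (v : Fin n → A) :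
    f (rowsOf M v).det = (rowsOf (M.map f) (fun i => f (v i))).det := by
  rw [RingHom.map_det]
  congr 1
  ext k i
  have h1 : (M.map f) ^ (k : ℕ) = (M ^ (k : ℕ)).map f := by
    have := map_pow f.mapMatrix M (k : ℕ)
    simpa using this.symm
  simp only [RingHom.mapMatrix_apply, Matrix.map_apply, rowsOf, h1]
  rw [RingHom.map_mulVec]
  rfl

theorem t_LIN : S_LIN.{u} := by
  intro K _ n X R v hR
  set P : Matrix (Fin n) (Fin n) (Polynomial K) :=
    (Polynomial.X : Polynomial K) • X.map Polynomial.C + R.map Polynomial.C with hP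
  set q : Polynomial K := (rowsOf P (fun i => Polynomial.C (v i))).det with hq
  have hev : ∀ s : K, q.eval s = (rowsOf (s • X + R) v).det := by
    intro s
    have h1 := rowsOf_map (Polynomial.evalRingHom s) P (fun i => Polynomial.C (v i))
    rw [← hq] at h1
    simp only [Polynomial.coe_evalRingHom, Polynomial.eval_C] at h1
    rw [h1]
    have hPm : P.map (Polynomial.eval s) = s • X + R := by
      ext i j
      rw [hP]
      simp only [Matrix.map_apply, Matrix.add_apply, Matrix.smul_apply, smul_eq_mul,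
        Polynomial.eval_add, Polynomial.eval_mul, Polynomial.eval_X, Polynomial.eval_C]
    rw [hPm]
  have hq0 : q ≠ 0 := by
    intro h0
    have h1 := hev 0
    have e0 : (0 : K) • X + R = R := by rw [zero_smul, zero_add]
    rw [h0, Polynomial.eval_zero, e0] at h1
    exact (lin_iff_det R v).1 hR h1.symm
  refine (((Polynomial.rootSet_finite q K).image (fun s : K => s⁻¹)).insert 0).subset ?_
  intro t ht
  by_contra hcon
  apply ht
  rw [Set.mem_insert_iff, not_or] at hcon
  obtain ⟨ht0, hcon⟩ := hcon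
  have ht0' : t ≠ 0 := ht0
  have hs : q.eval t⁻¹ ≠ 0 := by
    intro h0
    apply hcon
    refine ⟨t⁻¹, ?_, by simp⟩
    rw [Polynomial.mem_rootSet]
    exact ⟨hq0, by simpa using h0⟩
  rw [hev, ← lin_iff_det] at hs
  intro Z hZ
  have hB : t⁻¹ • X + R = t⁻¹ • (X + t • R) := by
    rw [smul_add, smul_smul, inv_mul_cancel₀ ht0', one_smul]
  rw [hB] at hs
  obtain ⟨h, hh⟩ := lin_commutant (t⁻¹ • (X + t • R)) Z v hs (by
    rw [Matrix.mul_smul, Matrix.smul_mul, hZ])
  refine ⟨h.comp (Polynomial.C t⁻¹ * Polynomial.X), ?_⟩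
  rw [Polynomial.aeval_comp, map_mul, Polynomial.aeval_C, Polynomial.aeval_X, ← Algebra.smul_def]
  exact hh

end Pool.Agent.K1H41.NF
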