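import Pool.Agent.K1H41.NF.Stm
import Pool.Agent.H552R3.PC.Quant3
import Pool.Agent.TH82.NC.Dom
import Pool.Agent.H552R3.PC.Line

/-! `n`-central polynomials and good polynomials (helper68, for helper41, project NF). -/

set_option autoImplicit false

namespace Pool.Agent.K1H41.NF

universe u v

namespace NG

variable {K : Type u} [Field K] {σ : Type v} {n : ℕ}

theorem scalar_comm (c : K) (Z : Matrix (Fin n) (Fin n) K) :
    Matrix.scalar (Fin n) c * Z = Z * Matrix.scalar (Fin n) c :=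
  (Matrix.scalar_commute c (fun r => Commute.all c r) Z).eq

end NG

open NG

theorem t_NG : S_NG.{u, v} := by
  intro K _ _ σ n hn hnK f hf
  obtain ⟨_, ⟨hs, X1, hX1⟩, hmin⟩ := hf
  have hcom : ∀ (X : σ → Matrix (Fin n) (Fin n) K) (Z : Matrix (Fin n) (Fin n) K),
      FreeAlgebra.lift K X (f ^ n) * Z = Z * FreeAlgebra.lift K X (f ^ n) := by
    intro X Z
    obtain ⟨c, hc⟩ := hs X
    rw [hc]
    exact scalar_comm c Z
  have hnz : FreeAlgebra.lift K X1 f ≠ 0 := by
    intro h
    apply hX1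
    rw [map_pow, h, zero_pow hn.ne_zero]
  have hne : ∃ X : σ → Matrix (Fin n) (Fin n) K, ∃ Z : Matrix (Fin n) (Fin n) K,
      FreeAlgebra.lift K X f * Z ≠ Z * FreeAlgebra.lift K X f := by
    by_contra hcon
    push Not at hcon
    have h1 : IsCentral n (f ^ 1) := by
      rw [pow_one]
      exact ⟨fun X => Pool.Agent.H552R3.PC.scalar_of_comm _ (hcon X), X1, hnz⟩
    have h2 := hmin 1 Nat.one_pos h1
    exact absurd hn.two_le (by omega)
  refine ⟨fun X Z => ?_, fun X => ?_, X1, hnz⟩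
  · have h := hcom X Z
    rw [map_pow] at h
    exact h
  · obtain ⟨c, hc⟩ := Pool.Agent.H552R3.PC.charpoly_of_ncentral hn hnK f hcom hne X
    have : Nonempty (Fin n) := ⟨⟨0, hn.pos⟩⟩
    rw [ev, Matrix.trace_eq_neg_charpoly_coeff, hc, Fintype.card_fin, Polynomial.coeff_sub,
      Polynomial.coeff_X_pow, Polynomial.coeff_C, if_neg, if_neg, sub_zero, neg_zero]
    · have := hn.two_le
      omega
    · have := hn.two_le
      omega

theorem t_GN : S_GN.{u, v} := by
  intro K _ _ σ n hn hnK f hf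
  have hsc : ScalarValued n (f ^ n) := by
    intro X
    apply Pool.Agent.H552R3.PC.scalar_of_comm
    intro Y
    rw [map_pow]
    exact hf.com X Y
  obtain ⟨X1, hX1⟩ := hf.nz
  have hnz : ∃ X : σ → Matrix (Fin n) (Fin n) K, FreeAlgebra.lift K X (f ^ n) ≠ 0 := by
    by_contra hcon
    push Not at hcon
    exact hX1 (Pool.Agent.TH82.NC.vanish_of_pow n f n hcon X1)
  refine ⟨hn.pos, ⟨hsc, hnz⟩, fun μ hμ hc => ?_⟩
  by_contra hlt
  push Not at hlt
  have hcop : Nat.Coprime μ n := (Nat.coprime_of_lt_prime hμ.ne' hlt hn).symm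
  obtain ⟨m, hm⟩ := Nat.exists_mul_mod_eq_one_of_coprime hcop hn.one_lt
  have hdiv : μ * m = n * (μ * m / n) + 1 := by
    have := Nat.div_add_mod (μ * m) n
    omega
  have hdet0 : ∃ X : σ → Matrix (Fin n) (Fin n) K, (FreeAlgebra.lift K X f).det ≠ 0 := by
    obtain ⟨X, hX⟩ := hnz
    refine ⟨X, fun h => hX ?_⟩
    obtain ⟨c, hc'⟩ := hsc X
    have h1 : (Matrix.scalar (Fin n) c).det = 0 := by
      rw [← hc', map_pow, Matrix.det_pow, h, zero_pow hn.ne_zero]
    have h2 : c = 0 := by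
      rw [Matrix.scalar_apply, Matrix.det_diagonal, Finset.prod_const] at h1
      exact pow_eq_zero_iff (by simp [hn.ne_zero]) |>.1 h1
    rw [hc', h2, map_zero]
  have hall := Pool.Agent.H552R3.PC.generic f f hdet0 (fun X hX Y => by
    have hu : IsUnit (FreeAlgebra.lift K X f ^ (n * (μ * m / n))) := by
      rw [Matrix.isUnit_iff_isUnit_det, Matrix.det_pow]
      exact (IsUnit.mk0 _ hX).pow _
    have hP : FreeAlgebra.lift K X f ^ (n * (μ * m / n)) * Y =
        Y * FreeAlgebra.lift K X f ^ (n * (μ * m / n)) := by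
      rw [pow_mul]
      have h : Commute (FreeAlgebra.lift K X f ^ n) Y := hf.com X Y
      exact (h.pow_left _).eq
    have hQ : FreeAlgebra.lift K X f ^ (μ * m) * Y = Y * FreeAlgebra.lift K X f ^ (μ * m) := by
      rw [pow_mul]
      obtain ⟨c, hc'⟩ := hc.1 X
      have h : Commute (FreeAlgebra.lift K X f ^ μ) Y := by
        rw [map_pow] at hc'
        rw [hc']
        exact scalar_comm c Y
      exact (h.pow_left _).eq
    rw [hdiv, pow_succ] at hQ
    apply hu.mul_left_cancel
    rw [← mul_assoc, hQ, ← mul_assoc, ← mul_assoc, hP])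
  apply hX1
  obtain ⟨c, hc'⟩ := Pool.Agent.H552R3.PC.scalar_of_comm _ (hall X1)
  have h1 := hf.tr X1
  rw [ev, hc', Matrix.scalar_apply, Matrix.trace_diagonal, Finset.sum_const, Finset.card_univ,
    Fintype.card_fin, nsmul_eq_mul] at h1
  have h2 : c = 0 := (mul_eq_zero.1 h1).resolve_left hnK
  rw [ev, hc', h2, map_zero]

end Pool.Agent.K1H41.NF

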