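import Pool.Agent.K1H41.NF.Stm

/-!
# Two matrices generate the matrix algebra
-/

set_option autoImplicit false

namespace Pool.Agent.K1H41.NF

open Matrix

universe u

/-- the cyclic permutation matrix, `e_j ↦ e_(j+1)` -/
def shiftMat (K : Type u) [Field K] (n : ℕ) [NeZero n] : Matrix (Fin n) (Fin n) K :=
  fun i j => if i = j + 1 then 1 else 0

lemma shift_mul_single {K : Type u} [Field K] {n : ℕ} [NeZero n] (i j : Fin n) :
    shiftMat K n * Matrix.single i j (1 : K) = Matrix.single (i + 1) j 1 := by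
  ext a b
  by_cases hb : b = j
  · subst hb
    rw [Matrix.mul_single_apply_same, mul_one]
    by_cases ha : a = i + 1
    · subst ha
      simp [shiftMat]
    · rw [Matrix.single_apply_of_row_ne (fun h => ha h.symm)]
      simp [shiftMat, ha]
  · rw [Matrix.mul_single_apply_of_ne _ _ _ _ _ hb,
      Matrix.single_apply_of_col_ne _ _ (fun h => hb h.symm)]

lemma single_mul_shift {K : Type u} [Field K] {n : ℕ} [NeZero n] (i j : Fin n) :
    Matrix.single i j (1 : K) * shiftMat K n = Matrix.single i (j - 1) 1 := by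
  ext a b
  by_cases ha : a = i
  · subst ha
    rw [Matrix.single_mul_apply_same, one_mul]
    by_cases hb : b = j - 1
    · subst hb
      simp [shiftMat]
    · rw [Matrix.single_apply_of_col_ne _ _ (fun h => hb h.symm)]
      have : j ≠ b + 1 := fun h => hb (by rw [h, add_sub_cancel_right])
      simp [shiftMat, this]
  · rw [Matrix.single_mul_apply_of_ne _ _ _ _ _ ha,
      Matrix.single_apply_of_row_ne (fun h => ha h.symm)]

theorem t_VAR : S_VAR.{u} := by
  intro K _ n hn
  have : NeZero n := ⟨hn.ne'⟩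
  refine ⟨![Matrix.single 0 0 1, shiftMat K n], fun A => ?_⟩
  set X0 : Fin 2 → Matrix (Fin n) (Fin n) K := ![Matrix.single 0 0 1, shiftMat K n] with hX0
  have hE : Matrix.single 0 0 (1 : K) ∈ (FreeAlgebra.lift K X0).range :=
    ⟨FreeAlgebra.ι K 0, by
      change FreeAlgebra.lift K X0 (FreeAlgebra.ι K 0) = _
      rw [FreeAlgebra.lift_ι_apply]
      simp [hX0]⟩
  have hP : shiftMat K n ∈ (FreeAlgebra.lift K X0).range :=
    ⟨FreeAlgebra.ι K 1, by
      change FreeAlgebra.lift K X0 (FreeAlgebra.ι K 1) = _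
      rw [FreeAlgebra.lift_ι_apply]
      simp [hX0]⟩
  have hstep : ∀ (k : ℕ) (hk : k + 1 < n),
      (⟨k + 1, hk⟩ : Fin n) = ⟨k, Nat.lt_of_succ_lt hk⟩ + 1 := by
    intro k hk
    have h1n : 1 < n := by omega
    apply Fin.ext
    rw [Fin.val_add]
    have : ((1 : Fin n) : ℕ) = 1 := by
      rw [Fin.val_one', Nat.mod_eq_of_lt h1n]
    rw [this, Nat.mod_eq_of_lt hk]
  have h1 : ∀ (a : ℕ) (ha : a < n), Matrix.single (⟨a, ha⟩ : Fin n) 0 (1 : K) ∈
      (FreeAlgebra.lift K X0).range := by
    intro a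
    induction a with
    | zero =>
      intro ha
      exact hE
    | succ a ih =>
      intro ha
      have := mul_mem hP (ih (Nat.lt_of_succ_lt ha))
      rw [shift_mul_single] at this
      rw [hstep a ha]
      exact this
  have h2 : ∀ (i : Fin n) (b : ℕ) (hb : b < n), Matrix.single i (-(⟨b, hb⟩ : Fin n)) (1 : K) ∈
      (FreeAlgebra.lift K X0).range := by
    intro i b
    induction b with
    | zero =>
      intro hb
      have e : -(⟨0, hb⟩ : Fin n) = 0 := by
        have : (⟨0, hb⟩ : Fin n) = 0 := rfl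
        rw [this, neg_zero]
      rw [e]
      exact h1 i.val i.isLt
    | succ b ih =>
      intro hb
      have := mul_mem (ih (Nat.lt_of_succ_lt hb)) hP
      rw [single_mul_shift] at this
      have e : -(⟨b + 1, hb⟩ : Fin n) = -(⟨b, Nat.lt_of_succ_lt hb⟩ : Fin n) - 1 := by
        rw [hstep b hb, neg_add, sub_eq_add_neg]
      rwa [e]
  have h3 : ∀ (i j : Fin n) (c : K), Matrix.single i j c ∈ (FreeAlgebra.lift K X0).range := by
    intro i j c
    have := h2 i (-j).val (-j).isLt
    have e : (⟨(-j).val, (-j).isLt⟩ : Fin n) = -j := rfl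
    rw [e, neg_neg] at this
    have h4 := Subalgebra.smul_mem _ this c
    rwa [Matrix.smul_single, smul_eq_mul, mul_one] at h4
  have h5 : A ∈ (FreeAlgebra.lift K X0).range := by
    rw [Matrix.matrix_eq_sum_single A]
    exact Subalgebra.sum_mem _ fun i _ => Subalgebra.sum_mem _ fun j _ => h3 i j _
  obtain ⟨w, hw⟩ := h5
  exact ⟨w, hw⟩

end Pool.Agent.K1H41.NF
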